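import Pool.Agent.helper15.P2.SpecD
import Pool.Agent.helper26.P2.CUT

set_option autoImplicit false

/-! # P2 (MP_063734_an), row BC2 -/

open scoped ContDiff Topology ComplexConjugate ENNReal
open MeasureTheory Filter Set Metric

namespace Pool.Agent.P2B

open Pool.Agent.P2 Pool.Agent.P2I

theorem BC2_intg {f : ℂ → ℝ} (hf : Continuous f) (h0 : ∀ z, z ∉ ball (0 : ℂ) (4 / 5) → f z = 0) :
    Integrable f := by
  refine hf.integrable_of_hasCompactSupport
    (HasCompactSupport.intro (isCompact_closedBall (0 : ℂ) (4 / 5)) fun z hz => h0 z fun h => ?_)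
  exact hz (ball_subset_closedBall h)

/-- `∫ lap κ U` is small -/
theorem BC2_lap {κ U T : ℂ → ℝ} {c J : ℝ} (hκ : ContDiff ℝ ∞ κ) (hs : tsupport κ ⊆ ball 0 (4 / 5))
    (hc : ∀ z, |lap κ z| ≤ c) (hU : Continuous U) (hT : Continuous T)
    (hUT : ∀ z ∈ ball (0 : ℂ) (4 / 5), |U z| ≤ |T z|)
    (hJ : ∫ z in ball (0 : ℂ) (4 / 5), |T z| ≤ J) :
    Integrable (fun z => |lap κ z| * |U z|) ∧ ∫ z, |lap κ z| * |U z| ≤ c * J ∧
      ∫ z, lap κ z * U z ≤ c * J := by
  have hc0 : 0 ≤ c := le_trans (abs_nonneg _) (hc 0)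
  have i1 : Integrable (fun z => |lap κ z| * |U z|) :=
    BC2_intg ((IG_lap_cont hκ).abs.mul hU.abs) fun z hz => by
      rw [CUT_lap0 hs z hz, abs_zero, zero_mul]
  have i2 : Integrable (fun z => lap κ z * U z) :=
    BC2_intg ((IG_lap_cont hκ).mul hU) fun z hz => by rw [CUT_lap0 hs z hz, zero_mul]
  have h1 : ∫ z, |lap κ z| * |U z| ≤ c * J := by
    have e : ∫ z, |lap κ z| * |U z| = ∫ z in ball (0 : ℂ) (4 / 5), |lap κ z| * |U z| := by
      refine (setIntegral_eq_integral_of_forall_compl_eq_zero ?_).symm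
      intro z hz
      rw [CUT_lap0 hs z hz, abs_zero, zero_mul]
    have hTi : IntegrableOn (fun z => |T z|) (ball (0 : ℂ) (4 / 5)) :=
      (hT.abs.continuousOn.integrableOn_compact (isCompact_closedBall (0 : ℂ) (4 / 5))).mono_set
        ball_subset_closedBall
    rw [e]
    calc ∫ z in ball (0 : ℂ) (4 / 5), |lap κ z| * |U z|
        ≤ ∫ z in ball (0 : ℂ) (4 / 5), c * |T z| := by
          refine setIntegral_mono_on i1.integrableOn (hTi.const_mul c) measurableSet_ball ?_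
          intro z hz
          exact mul_le_mul (hc z) (hUT z hz) (abs_nonneg _) hc0
      _ = c * ∫ z in ball (0 : ℂ) (4 / 5), |T z| := integral_const_mul _ _
      _ ≤ c * J := mul_le_mul_of_nonneg_left hJ hc0
  refine ⟨i1, h1, le_trans ?_ h1⟩
  refine integral_mono i2 i1 fun z => ?_
  show lap κ z * U z ≤ |lap κ z| * |U z|
  rw [← abs_mul]
  exact le_abs_self _

/-- the main estimate for globally smooth functions -/
theorem BC2_main (hIB1 : IB1_stmt) {χ b T V : ℂ → ℝ} {c c1 c2 J B l : ℝ} (hχ : ContDiff ℝ ∞ χ)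
    (hχs : tsupport χ ⊆ ball 0 (4 / 5)) (hχ0 : ∀ z, 0 ≤ χ z) (hb : ContDiff ℝ ∞ b)
    (hbs : tsupport b ⊆ ball 0 (4 / 5)) (hb0 : ∀ z, 0 ≤ b z) (hc1 : ∀ z, |lap χ z| ≤ c1)
    (hc2 : ∀ z, |lap b z| ≤ c2) (hc : 0 ≤ c) (hD1 : ∀ z, |CUT_D 1 χ z| ≤ c * b z)
    (hD2 : ∀ z, |CUT_D Complex.I χ z| ≤ c * b z) (hT : ContDiff ℝ ∞ T)
    (hT0 : ∀ z ∈ ball (0 : ℂ) (4 / 5), 0 ≤ lap T z) (hT1 : ∀ z ∈ ball (0 : ℂ) (4 / 5), |T z| ≤ 1)
    (hJ : ∫ z in ball (0 : ℂ) (4 / 5), |T z| ≤ J) (hV : ContDiff ℝ ∞ V)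
    (hVB : ∀ z ∈ ball (0 : ℂ) (4 / 5), |V z| ≤ B) (hB : 0 ≤ B) (hl : 0 < l) :
    |∫ z, χ z * T z * lap V z| ≤
      B * (2 * (c1 * J) + c / 2 * (l * (∫ z, b z) + 1 / (2 * l) * (6 * (c2 * J)))) := by
  have hχc : HasCompactSupport χ :=
    HasCompactSupport.of_support_subset_isCompact (isCompact_closedBall (0 : ℂ) (4 / 5))
      ((subset_tsupport _).trans (hχs.trans ball_subset_closedBall))
  have hbc : HasCompactSupport b :=
    HasCompactSupport.of_support_subset_isCompact (isCompact_closedBall (0 : ℂ) (4 / 5))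
      ((subset_tsupport _).trans (hbs.trans ball_subset_closedBall))
  have hz0 : ∀ z, z ∉ ball (0 : ℂ) (4 / 5) → χ z = 0 := fun z hz =>
    image_eq_zero_of_notMem_tsupport fun h => hz (hχs h)
  have hz1 : ∀ z, z ∉ ball (0 : ℂ) (4 / 5) → b z = 0 := fun z hz =>
    image_eq_zero_of_notMem_tsupport fun h => hz (hbs h)
  set f : ℂ → ℝ := fun z => χ z * T z with hf
  have hfs : ContDiff ℝ ∞ f := hχ.mul hT
  have hfsupp : tsupport f ⊆ ball 0 (4 / 5) := CUT_supp_mul.trans hχs
  have hfc : HasCompactSupport f :=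
    HasCompactSupport.of_support_subset_isCompact (isCompact_closedBall (0 : ℂ) (4 / 5))
      ((subset_tsupport _).trans (hfsupp.trans ball_subset_closedBall))
  have e1 : ∫ z, χ z * T z * lap V z = ∫ z, lap f z * V z :=
    hIB1 (ball 0 (4 / 5)) f V isOpen_ball hfs hfc hfsupp hV.contDiffOn
  have hx := (CUT_D_smooth hT 1).continuous
  have hy := (CUT_D_smooth hT Complex.I).continuous
  -- the integral of the gradient
  have hlT : Continuous (lap T) := IG_lap_cont hT
  have hTT : ContDiff ℝ ∞ (fun z => T z * T z) := hT.mul hT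
  have i4 : Integrable (fun z => b z * (CUT_D 1 T z ^ 2 + CUT_D Complex.I T z ^ 2)) :=
    BC2_intg (hb.continuous.mul ((hx.pow 2).add (hy.pow 2))) fun z hz => by rw [hz1 z hz, zero_mul]
  have I4 : ∫ z, b z * (CUT_D 1 T z ^ 2 + CUT_D Complex.I T z ^ 2) ≤ 6 * (c2 * J) := by
    have j1 : Integrable (fun z => b z * lap (fun z => T z * T z) z) :=
      BC2_intg (hb.continuous.mul (IG_lap_cont hTT)) fun z hz => by rw [hz1 z hz, zero_mul]
    have j2 : Integrable (fun z => b z * lap T z) :=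
      BC2_intg (hb.continuous.mul hlT) fun z hz => by rw [hz1 z hz, zero_mul]
    have h1 : ∫ z, b z * (CUT_D 1 T z ^ 2 + CUT_D Complex.I T z ^ 2) ≤
        ∫ z, (2 * (b z * lap (fun z => T z * T z) z) + 4 * (b z * lap T z)) := by
      refine integral_mono i4 ((j1.const_mul 2).add (j2.const_mul 4)) fun z => ?_
      show b z * (CUT_D 1 T z ^ 2 + CUT_D Complex.I T z ^ 2) ≤
        2 * (b z * lap (fun z => T z * T z) z) + 4 * (b z * lap T z)
      rw [CUT_lap_mul hT hT]
      by_cases hz : z ∈ ball (0 : ℂ) (4 / 5)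
      · have h2 : 0 ≤ (1 + T z) * lap T z :=
          mul_nonneg (by linarith [(abs_le.1 (hT1 z hz)).1]) (hT0 z hz)
        have h3 := mul_nonneg (hb0 z) h2
        nlinarith
      · rw [hz1 z hz]
        simp
    have h2 : ∫ z, (2 * (b z * lap (fun z => T z * T z) z) + 4 * (b z * lap T z)) =
        2 * (∫ z, lap b z * (T z * T z)) + 4 * ∫ z, lap b z * T z := by
      rw [integral_add (j1.const_mul 2) (j2.const_mul 4), integral_const_mul, integral_const_mul]
      congr 2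
      · exact hIB1 (ball 0 (4 / 5)) b (fun z => T z * T z) isOpen_ball hb hbc hbs hTT.contDiffOn
      · exact hIB1 (ball 0 (4 / 5)) b T isOpen_ball hb hbc hbs hT.contDiffOn
    have h3 := (BC2_lap (U := fun z => T z * T z) hb hbs hc2 hTT.continuous hT.continuous (by
      intro z hz
      rw [abs_mul]
      exact mul_le_of_le_one_left (abs_nonneg _) (hT1 z hz)) hJ).2.2
    have h4 := (BC2_lap hb hbs hc2 hT.continuous hT.continuous (fun z _ => le_rfl) hJ).2.2
    rw [h2] at h1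
    linarith
  -- the other integrals
  have i1 : Integrable (fun z => χ z * lap T z) :=
    BC2_intg (hχ.continuous.mul hlT) fun z hz => by rw [hz0 z hz, zero_mul]
  have I1 : ∫ z, χ z * lap T z ≤ c1 * J := by
    rw [hIB1 (ball 0 (4 / 5)) χ T isOpen_ball hχ hχc hχs hT.contDiffOn]
    exact (BC2_lap hχ hχs hc1 hT.continuous hT.continuous (fun z _ => le_rfl) hJ).2.2
  obtain ⟨i2, I2, -⟩ := BC2_lap hχ hχs hc1 hT.continuous hT.continuous (fun z _ => le_rfl) hJ
  have i3 : Integrable b := BC2_intg hb.continuous hz1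
  have iL : Integrable (fun z => |lap f z|) :=
    BC2_intg (IG_lap_cont hfs).abs fun z hz => by rw [CUT_lap0 hfsupp z hz, abs_zero]
  have iLV : Integrable (fun z => |lap f z * V z|) :=
    BC2_intg ((IG_lap_cont hfs).mul hV.continuous).abs fun z hz => by
      rw [CUT_lap0 hfsupp z hz, zero_mul, abs_zero]
  have hmain : ∫ z, |lap f z| ≤
      2 * (c1 * J) + c / 2 * (l * (∫ z, b z) + 1 / (2 * l) * (6 * (c2 * J))) := by
    have h1 : ∫ z, |lap f z| ≤ ∫ z, ((χ z * lap T z + |lap χ z| * |T z|) +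
        c / 2 * (l * b z + 1 / (2 * l) * (b z * (CUT_D 1 T z ^ 2 + CUT_D Complex.I T z ^ 2)))) := by
      refine integral_mono iL ((i1.add i2).add
        (((i3.const_mul l).add (i4.const_mul (1 / (2 * l)))).const_mul (c / 2))) fun z => ?_
      show |lap f z| ≤ (χ z * lap T z + |lap χ z| * |T z|) +
        c / 2 * (l * b z + 1 / (2 * l) * (b z * (CUT_D 1 T z ^ 2 + CUT_D Complex.I T z ^ 2)))
      by_cases hz : z ∈ ball (0 : ℂ) (4 / 5)
      · have h2 : lap f z = χ z * lap T z + T z * lap χ z +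
            (1 / 2) * (CUT_D 1 χ z * CUT_D 1 T z + CUT_D Complex.I χ z * CUT_D Complex.I T z) :=
          CUT_lap_mul hχ hT z
        have h3 : 0 ≤ χ z * lap T z := mul_nonneg (hχ0 z) (hT0 z hz)
        have hy1 : ∀ x : ℝ, |x| ≤ l / 2 + 1 / (2 * l) * x ^ 2 := by
          intro x
          have h5 : 0 ≤ (l - |x|) ^ 2 / (2 * l) := by positivity
          have h6 : (l - |x|) ^ 2 / (2 * l) = l / 2 + 1 / (2 * l) * x ^ 2 - |x| := by
            rw [← sq_abs x]
            field_simp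
            ring
          linarith
        have h4 : |CUT_D 1 χ z * CUT_D 1 T z| ≤ c * b z * (l / 2 + 1 / (2 * l) * CUT_D 1 T z ^ 2) := by
          rw [abs_mul]
          exact mul_le_mul (hD1 z) (hy1 _) (abs_nonneg _) (mul_nonneg hc (hb0 z))
        have h5 : |CUT_D Complex.I χ z * CUT_D Complex.I T z| ≤
            c * b z * (l / 2 + 1 / (2 * l) * CUT_D Complex.I T z ^ 2) := by
          rw [abs_mul]
          exact mul_le_mul (hD2 z) (hy1 _) (abs_nonneg _) (mul_nonneg hc (hb0 z))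
        have h6 : |T z * lap χ z| = |lap χ z| * |T z| := by rw [abs_mul, mul_comm]
        have h7 := abs_add_le (χ z * lap T z + T z * lap χ z)
          ((1 / 2) * (CUT_D 1 χ z * CUT_D 1 T z + CUT_D Complex.I χ z * CUT_D Complex.I T z))
        have h8 := abs_add_le (χ z * lap T z) (T z * lap χ z)
        have h9 := abs_add_le (CUT_D 1 χ z * CUT_D 1 T z) (CUT_D Complex.I χ z * CUT_D Complex.I T z)
        rw [abs_mul (1 / 2 : ℝ), abs_of_pos (by norm_num : (0 : ℝ) < 1 / 2)] at h7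
        rw [abs_of_nonneg h3, h6] at h8
        rw [h2]
        have h10 : c / 2 * (l * b z + 1 / (2 * l) *
            (b z * (CUT_D 1 T z ^ 2 + CUT_D Complex.I T z ^ 2))) =
            1 / 2 * (c * b z * (l / 2 + 1 / (2 * l) * CUT_D 1 T z ^ 2) +
              c * b z * (l / 2 + 1 / (2 * l) * CUT_D Complex.I T z ^ 2)) := by ring
        rw [h10]
        linarith
      · rw [CUT_lap0 hfsupp z hz, hz0 z hz, hz1 z hz, CUT_lap0 hχs z hz]
        simp
    have k1 : Integrable (fun z => χ z * lap T z + |lap χ z| * |T z|) := i1.add i2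
    have k4 : Integrable (fun z => l * b z) := i3.const_mul l
    have k5 : Integrable (fun z => 1 / (2 * l) *
        (b z * (CUT_D 1 T z ^ 2 + CUT_D Complex.I T z ^ 2))) := i4.const_mul _
    have k3 : Integrable (fun z => c / 2 * (l * b z + 1 / (2 * l) *
        (b z * (CUT_D 1 T z ^ 2 + CUT_D Complex.I T z ^ 2)))) := (k4.add k5).const_mul _
    rw [integral_add k1 k3, integral_add i1 i2, integral_const_mul, integral_add k4 k5,
      integral_const_mul, integral_const_mul] at h1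
    have h2 : 1 / (2 * l) * (∫ z, b z * (CUT_D 1 T z ^ 2 + CUT_D Complex.I T z ^ 2)) ≤
        1 / (2 * l) * (6 * (c2 * J)) := mul_le_mul_of_nonneg_left I4 (by positivity)
    have h3 : c / 2 * (l * (∫ z, b z) + 1 / (2 * l) *
        (∫ z, b z * (CUT_D 1 T z ^ 2 + CUT_D Complex.I T z ^ 2))) ≤
        c / 2 * (l * (∫ z, b z) + 1 / (2 * l) * (6 * (c2 * J))) :=
      mul_le_mul_of_nonneg_left (by linarith) (by positivity)
    linarith
  rw [e1]
  calc |∫ z, lap f z * V z| ≤ ∫ z, |lap f z * V z| := abs_integral_le_integral_abs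
    _ ≤ ∫ z, B * |lap f z| := by
        refine integral_mono iLV (iL.const_mul B) fun z => ?_
        show |lap f z * V z| ≤ B * |lap f z|
        by_cases hz : z ∈ ball (0 : ℂ) (4 / 5)
        · rw [abs_mul, mul_comm]
          exact mul_le_mul_of_nonneg_right (hVB z hz) (abs_nonneg _)
        · rw [CUT_lap0 hfsupp z hz]
          simp
    _ = B * ∫ z, |lap f z| := integral_const_mul _ _
    _ ≤ _ := mul_le_mul_of_nonneg_left hmain hB

theorem BC2 (hIB1 : IB1_stmt) : BC2_stmt := by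
  intro χ hχ hχc hχs hχ0
  obtain ⟨R, ⟨hR0, hR1⟩, hsR⟩ := exists_pos_lt_subset_ball (by norm_num : (0 : ℝ) < 4 / 5)
    (isClosed_tsupport χ) hχs
  let b1 : ContDiffBump (0 : ℂ) := ⟨R, (R + 4 / 5) / 2, hR0, by linarith⟩
  let b2 : ContDiffBump (0 : ℂ) := ⟨4 / 5, 9 / 10, by norm_num, by norm_num⟩
  have hb1s : ContDiff ℝ ∞ (b1 : ℂ → ℝ) := b1.contDiff
  have hb2s : ContDiff ℝ ∞ (b2 : ℂ → ℝ) := b2.contDiff
  have hb1t : tsupport (b1 : ℂ → ℝ) ⊆ ball 0 (4 / 5) := by
    rw [b1.tsupport_eq]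
    refine closedBall_subset_ball ?_
    show (R + 4 / 5) / 2 < 4 / 5
    linarith
  have hb2t : tsupport (b2 : ℂ → ℝ) ⊆ ball 0 1 := by
    rw [b2.tsupport_eq]
    exact closedBall_subset_ball (by norm_num)
  have hb1one : ∀ z ∈ closedBall (0 : ℂ) R, b1 z = 1 := fun z hz => b1.one_of_mem_closedBall hz
  have hb2one : ∀ z ∈ closedBall (0 : ℂ) (4 / 5), b2 z = 1 := fun z hz =>
    b2.one_of_mem_closedBall hz
  obtain ⟨c1, hc10, hc1⟩ := CUT_bdd (IG_lap_cont hχ) (CUT_lap0 hχs)
  obtain ⟨c2, hc20, hc2⟩ := CUT_bdd (IG_lap_cont hb1s) (CUT_lap0 hb1t)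
  have hDb : ∀ (w z : ℂ), z ∉ ball (0 : ℂ) (4 / 5) → CUT_D w χ z = 0 :=
    fun w z hz => CUT_D_supp (fun h => hz (hχs h)) w
  obtain ⟨c3, hc30, hc3⟩ := CUT_bdd (CUT_D_smooth hχ 1).continuous (hDb 1)
  obtain ⟨c4, hc40, hc4⟩ := CUT_bdd (CUT_D_smooth hχ Complex.I).continuous (hDb Complex.I)
  have hDc : ∀ w z : ℂ, ∀ k : ℝ, (∀ z, |CUT_D w χ z| ≤ k) → k ≤ c3 + c4 → 
      |CUT_D w χ z| ≤ (c3 + c4) * b1 z := by
    intro w z k hk hk'
    by_cases hz : z ∈ tsupport χ
    · rw [hb1one z (ball_subset_closedBall (hsR hz)), mul_one]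
      exact le_trans (hk z) hk'
    · rw [CUT_D_supp hz, abs_zero]
      exact mul_nonneg (add_nonneg hc30 hc40) b1.nonneg
  set V0 : ℝ := ∫ z, b1 z with hV0
  have hV00 : 0 ≤ V0 := integral_nonneg fun z => b1.nonneg
  set V1 : ℝ := volume.real (ball (0 : ℂ) (4 / 5)) with hV1
  have hV10 : 0 < V1 := by
    rw [hV1, measureReal_def]
    exact ENNReal.toReal_pos (measure_ball_pos volume (0 : ℂ) (by norm_num)).ne'
      measure_ball_lt_top.ne
  set C : ℝ := 2 * c1 * Real.sqrt V1 + (c3 + c4) / 2 * (V0 + 3 * c2) + 1 with hC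
  have hC0 : 0 < C := by positivity
  refine ⟨C, hC0, ?_⟩
  intro S v a B hS hv hSv hB ha hJ
  -- global functions
  set T : ℂ → ℝ := fun z => b2 z * S z with hT
  set V : ℂ → ℝ := fun z => b2 z * v z with hV
  have hTs : ContDiff ℝ ∞ T := CUT_ext hb2s hb2t hS
  have hVs : ContDiff ℝ ∞ V := CUT_ext hb2s hb2t hv
  have hsub : ball (0 : ℂ) (4 / 5) ⊆ ball 0 1 := ball_subset_ball (by norm_num)
  have hTe : ∀ z ∈ ball (0 : ℂ) (4 / 5), T z = S z := fun z hz => by
    rw [hT]
    show b2 z * S z = S z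
    rw [hb2one z (ball_subset_closedBall hz), one_mul]
  have hVe : ∀ z ∈ ball (0 : ℂ) (4 / 5), V z = v z := fun z hz => by
    rw [hV]
    show b2 z * v z = v z
    rw [hb2one z (ball_subset_closedBall hz), one_mul]
  have hTl : ∀ z ∈ ball (0 : ℂ) (4 / 5), lap T z = lap S z := fun z hz =>
    CUT_congr (by filter_upwards [isOpen_ball.mem_nhds hz] with x hx using hTe x hx)
  have hVl : ∀ z ∈ ball (0 : ℂ) (4 / 5), lap V z = lap v z := fun z hz =>
    CUT_congr (by filter_upwards [isOpen_ball.mem_nhds hz] with x hx using hVe x hx)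
  have hint : ∫ z, χ z * S z * lap v z = ∫ z, χ z * T z * lap V z := by
    refine integral_congr_ae (Eventually.of_forall fun z => ?_)
    show χ z * S z * lap v z = χ z * T z * lap V z
    by_cases hz : z ∈ ball (0 : ℂ) (4 / 5)
    · rw [hTe z hz, hVl z hz]
    · rw [image_eq_zero_of_notMem_tsupport fun h => hz (hχs h)]
      simp
  have hTJ : ∫ z in ball (0 : ℂ) (4 / 5), |T z| = ∫ z in ball (0 : ℂ) (4 / 5), |S z| := by
    refine setIntegral_congr_fun measurableSet_ball fun z hz => ?_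
    show |T z| = |S z|
    rw [hTe z hz]
  have hJ1 : ∫ z in ball (0 : ℂ) (4 / 5), |T z| ≤ V1 := by
    have hTi : IntegrableOn (fun z => |T z|) (ball (0 : ℂ) (4 / 5)) :=
      (hTs.continuous.abs.continuousOn.integrableOn_compact
        (isCompact_closedBall (0 : ℂ) (4 / 5))).mono_set ball_subset_closedBall
    calc ∫ z in ball (0 : ℂ) (4 / 5), |T z| ≤ ∫ z in ball (0 : ℂ) (4 / 5), (1 : ℝ) := by
          refine setIntegral_mono_on hTi (integrableOn_const measure_ball_lt_top.ne)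
            measurableSet_ball fun z hz => ?_
          rw [hTe z hz]
          exact (hSv z (hsub hz)).2.1
      _ = V1 := by
          rw [setIntegral_const, smul_eq_mul, mul_one]
  -- the estimate for positive a
  have key : ∀ a : ℝ, 0 < a → ∫ z in ball (0 : ℂ) (4 / 5), |S z| ≤ a →
      |∫ z, χ z * S z * lap v z| ≤ C * B * Real.sqrt a := by
    intro a ha hJa
    set a' : ℝ := min a V1 with ha'
    have ha'0 : 0 < a' := lt_min ha hV10
    have hs0 : 0 < Real.sqrt a' := Real.sqrt_pos.2 ha'0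
    have hss : Real.sqrt a' * Real.sqrt a' = a' := Real.mul_self_sqrt ha'0.le
    have hJ' : ∫ z in ball (0 : ℂ) (4 / 5), |T z| ≤ a' := le_min (by rw [hTJ]; exact hJa) hJ1
    have h1 := BC2_main hIB1 (l := Real.sqrt a') hχ hχs hχ0 hb1s hb1t (fun z => b1.nonneg) hc1 hc2
      (add_nonneg hc30 hc40) (fun z => hDc 1 z c3 hc3 (by linarith))
      (fun z => hDc Complex.I z c4 hc4 (by linarith)) hTs
      (fun z hz => by rw [hTl z hz]; exact (hSv z (hsub hz)).1)
      (fun z hz => by rw [hTe z hz]; exact (hSv z (hsub hz)).2.1) hJ' hVs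
      (fun z hz => by rw [hVe z hz]; exact (hSv z (hsub hz)).2.2) hB hs0
    rw [hint]
    refine le_trans h1 ?_
    have h2 : 2 * (c1 * a') + (c3 + c4) / 2 * (Real.sqrt a' * V0 + 1 / (2 * Real.sqrt a') *
        (6 * (c2 * a'))) = (2 * c1 * Real.sqrt a' + (c3 + c4) / 2 * (V0 + 3 * c2)) * Real.sqrt a' := by
      have h3 : 1 / (2 * Real.sqrt a') * (6 * (c2 * a')) = 3 * c2 * Real.sqrt a' := by
        have h4 : 1 / (2 * Real.sqrt a') * (6 * (c2 * (Real.sqrt a' * Real.sqrt a'))) =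
            3 * c2 * Real.sqrt a' := by
          field_simp
          ring
        rw [hss] at h4
        exact h4
      rw [h3]
      have h5 : c1 * a' = c1 * (Real.sqrt a' * Real.sqrt a') := by rw [hss]
      rw [h5]
      ring
    rw [h2]
    have h3 : Real.sqrt a' ≤ Real.sqrt V1 := Real.sqrt_le_sqrt (min_le_right _ _)
    have h4 : Real.sqrt a' ≤ Real.sqrt a := Real.sqrt_le_sqrt (min_le_left _ _)
    have h5 : 2 * c1 * Real.sqrt a' + (c3 + c4) / 2 * (V0 + 3 * c2) ≤ C := by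
      have := mul_le_mul_of_nonneg_left h3 (by positivity : 0 ≤ 2 * c1)
      rw [hC]
      linarith
    have h6 : (2 * c1 * Real.sqrt a' + (c3 + c4) / 2 * (V0 + 3 * c2)) * Real.sqrt a' ≤
        C * Real.sqrt a := mul_le_mul h5 h4 hs0.le hC0.le
    calc B * ((2 * c1 * Real.sqrt a' + (c3 + c4) / 2 * (V0 + 3 * c2)) * Real.sqrt a')
        ≤ B * (C * Real.sqrt a) := mul_le_mul_of_nonneg_left h6 hB
      _ = C * B * Real.sqrt a := by ring
  rcases eq_or_lt_of_le ha with h0 | h0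
  · rw [← h0, Real.sqrt_zero, mul_zero]
    refine le_of_forall_pos_le_add fun ε hε => ?_
    have hCB : 0 < C * B + 1 := by positivity
    have h1 := key ((ε / (C * B + 1)) ^ 2) (by positivity) (le_trans hJ (by rw [← h0]; positivity))
    rw [Real.sqrt_sq (by positivity)] at h1
    refine le_trans h1 ?_
    rw [zero_add]
    have h2 : C * B * (ε / (C * B + 1)) = ε * (C * B / (C * B + 1)) := by ring
    rw [h2]
    have h3 : C * B / (C * B + 1) ≤ 1 := by
      rw [div_le_one hCB]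
      linarith
    exact mul_le_of_le_one_right hε.le h3
  · exact key a h0 hJ

end Pool.Agent.P2B
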