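import Pool.Agent.helper15.P2.SpecD
import Pool.Agent.helper43.P2.CHN

set_option autoImplicit false

/-! # P2 (MP_063734_an), row BMP -/

open scoped ContDiff Topology ComplexConjugate ENNReal
open MeasureTheory Filter Set Metric

namespace Pool.Agent.P2B

open Pool.Agent.P2 Pool.Agent.P2I

/-- the coordinate form of the Hermitian form -/
theorem BMP_form (A : ℂ × ℂ → ℝ) (p : ℂ × ℂ) (hA : ContDiffAt ℝ 2 A p) (a : ℂ × ℂ) :
    lev A p a = Complex.normSq a.1 * lev A p (1, 0) + Complex.normSq a.2 * lev A p (0, 1) +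
      2 * ((a.1.re * a.2.re + a.1.im * a.2.im) * lre A p +
        (a.1.re * a.2.im - a.1.im * a.2.re) * lim A p) := by
  unfold lre Pool.Agent.P2.lim
  rw [CHN_lev A p a hA, CHN_lev A p (1, 0) hA, CHN_lev A p (0, 1) hA, CHN_lev A p (1, 1) hA,
    CHN_lev A p (1, Complex.I) hA]
  have hs : ∀ v w : ℂ × ℂ, fderiv ℝ (fderiv ℝ A) p v w = fderiv ℝ (fderiv ℝ A) p w v := by
    intro v w
    exact (hA.isSymmSndFDerivAt (by rw [minSmoothness_of_isRCLikeNormedField])) v w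
  set H := fderiv ℝ (fderiv ℝ A) p with hH
  have d1 : a = a.1.re • ((1, 0) : ℂ × ℂ) + a.1.im • ((Complex.I, 0) : ℂ × ℂ) +
      (a.2.re • ((0, 1) : ℂ × ℂ) + a.2.im • ((0, Complex.I) : ℂ × ℂ)) := by
    refine Prod.ext ?_ ?_ <;> apply Complex.ext <;> simp
  have d2 : Complex.I • a = (-a.1.im) • ((1, 0) : ℂ × ℂ) + a.1.re • ((Complex.I, 0) : ℂ × ℂ) +
      ((-a.2.im) • ((0, 1) : ℂ × ℂ) + a.2.re • ((0, Complex.I) : ℂ × ℂ)) := by
    refine Prod.ext ?_ ?_ <;> apply Complex.ext <;> simp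
  have d3 : Complex.I • ((1, 0) : ℂ × ℂ) = (Complex.I, 0) := by
    refine Prod.ext ?_ ?_ <;> apply Complex.ext <;> simp
  have d4 : Complex.I • ((0, 1) : ℂ × ℂ) = (0, Complex.I) := by
    refine Prod.ext ?_ ?_ <;> apply Complex.ext <;> simp
  have d5 : ((1, 1) : ℂ × ℂ) = (1, 0) + (0, 1) := by
    refine Prod.ext ?_ ?_ <;> apply Complex.ext <;> simp
  have d6 : Complex.I • ((1, 1) : ℂ × ℂ) = (Complex.I, 0) + (0, Complex.I) := by
    refine Prod.ext ?_ ?_ <;> apply Complex.ext <;> simp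
  have d7 : ((1, Complex.I) : ℂ × ℂ) = (1, 0) + (0, Complex.I) := by
    refine Prod.ext ?_ ?_ <;> apply Complex.ext <;> simp
  have d8 : Complex.I • ((1, Complex.I) : ℂ × ℂ) = (Complex.I, 0) + (-1 : ℝ) • (0, 1) := by
    refine Prod.ext ?_ ?_ <;> apply Complex.ext <;> simp
  rw [d2, d3, d4, d6, d8, d5, d7]
  have e0 : H a a = H (a.1.re • ((1, 0) : ℂ × ℂ) + a.1.im • ((Complex.I, 0) : ℂ × ℂ) +
      (a.2.re • ((0, 1) : ℂ × ℂ) + a.2.im • ((0, Complex.I) : ℂ × ℂ)))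
      (a.1.re • ((1, 0) : ℂ × ℂ) + a.1.im • ((Complex.I, 0) : ℂ × ℂ) +
      (a.2.re • ((0, 1) : ℂ × ℂ) + a.2.im • ((0, Complex.I) : ℂ × ℂ))) := by rw [← d1]
  rw [e0]
  simp only [map_add, map_smul, add_apply, smul_apply,
    smul_eq_mul, Complex.normSq_apply]
  rw [hs (Complex.I, 0) (1, 0), hs (0, 1) (1, 0), hs (0, Complex.I) (1, 0),
    hs (0, 1) (Complex.I, 0), hs (0, Complex.I) (Complex.I, 0), hs (0, Complex.I) (0, 1)]
  ring

/-- chain rule for maps to `ℂ × ℂ` -/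
theorem BMP_chain (O : Set (ℂ × ℂ)) (Ψ : ℂ × ℂ → ℂ × ℂ) (g : ℂ × ℂ → ℝ) (p a : ℂ × ℂ)
    (hO : IsOpen O) (hΨ : DifferentiableOn ℂ Ψ O) (hp : p ∈ O) (hg : ContDiffAt ℝ 2 g (Ψ p)) :
    lev (fun q => g (Ψ q)) p a = lev g (Ψ p) (fderiv ℂ Ψ p a) := by
  rw [CHN_lev g (Ψ p) (fderiv ℂ Ψ p a) hg]
  unfold lev
  have hlin : ∀ t : ℂ, HasDerivAt (fun t : ℂ => p + t • a) a t := by
    intro t
    have h1 := ((hasDerivAt_id t).smul_const a).const_add p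
    rwa [one_smul] at h1
  have h0 : p + (0 : ℂ) • a = p := by rw [zero_smul, add_zero]
  have hev : ∀ᶠ t : ℂ in 𝓝 0, p + t • a ∈ O := by
    have hc : ContinuousAt (fun t : ℂ => p + t • a) 0 := (hlin 0).continuousAt
    apply hc.eventually_mem
    show O ∈ 𝓝 (p + (0 : ℂ) • a)
    rw [h0]
    exact hO.mem_nhds hp
  have hΨd : ∀ q ∈ O, DifferentiableAt ℂ Ψ q := fun q hq => hΨ.differentiableAt (hO.mem_nhds hq)
  have hder : HasDerivAt (fun t : ℂ => Ψ (p + t • a)) (fderiv ℂ Ψ p a) 0 := by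
    have h1 : HasFDerivAt Ψ (fderiv ℂ Ψ p) (p + (0 : ℂ) • a) := by
      rw [h0]
      exact (hΨd p hp).hasFDerivAt
    exact h1.comp_hasDerivAt 0 (hlin 0)
  have h1 := CHN_lap (fun t : ℂ => Ψ (p + t • a)) 0 g (by
    filter_upwards [hev] with t ht
    exact (hΨd _ ht).comp t (hlin t).differentiableAt) (by
    show ContDiffAt ℝ 2 g (Ψ (p + (0 : ℂ) • a))
    rw [h0]
    exact hg)
  rw [hder.deriv] at h1
  rw [h0] at h1
  exact h1

/-- nonnegative forms: the discriminant -/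
theorem BMP_disc (a b r m : ℝ) (h : ∀ x y u v : ℝ, 0 ≤ (x * x + y * y) * a + (u * u + v * v) * b +
    2 * ((x * u + y * v) * r + (x * v - y * u) * m)) : 0 ≤ a ∧ 0 ≤ b ∧ r ^ 2 + m ^ 2 ≤ a * b := by
  have h1 : 0 ≤ a := by
    have := h 1 0 0 0
    linarith
  have h2 : 0 ≤ b := by
    have := h 0 0 1 0
    linarith
  refine ⟨h1, h2, ?_⟩
  rcases eq_or_lt_of_le h2 with hb | hb
  · -- b = 0
    by_contra hc
    rw [← hb, mul_zero, not_le] at hc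
    have h3 := h 1 0 (-r * ((a + 1) / (r ^ 2 + m ^ 2))) (-m * ((a + 1) / (r ^ 2 + m ^ 2)))
    rw [← hb] at h3
    have h4 : (r ^ 2 + m ^ 2) * ((a + 1) / (r ^ 2 + m ^ 2)) = a + 1 := by
      field_simp
    nlinarith
  · have h3 := h b 0 (-r) (-m)
    have h4 : 0 ≤ b * (a * b - (r ^ 2 + m ^ 2)) := by
      nlinarith
    have h5 := nonneg_of_mul_nonneg_right h4 hb
    linarith

theorem BMP_pos (a b r m a' b' r' m' : ℝ) (h : 0 ≤ a ∧ 0 ≤ b ∧ r ^ 2 + m ^ 2 ≤ a * b)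
    (h' : 0 ≤ a' ∧ 0 ≤ b' ∧ r' ^ 2 + m' ^ 2 ≤ a' * b') :
    0 ≤ a * b' + b * a' - 2 * (r * r' + m * m') := by
  obtain ⟨ha, hb, h1⟩ := h
  obtain ⟨ha', hb', h1'⟩ := h'
  have h2 : (2 * (r * r' + m * m')) ^ 2 ≤ (a * b' + b * a') ^ 2 := by
    have h3 : (r * r' + m * m') ^ 2 ≤ (r ^ 2 + m ^ 2) * (r' ^ 2 + m' ^ 2) := by
      nlinarith [sq_nonneg (r * m' - m * r')]
    have h4 : (r ^ 2 + m ^ 2) * (r' ^ 2 + m' ^ 2) ≤ (a * b) * (a' * b') :=
      mul_le_mul h1 h1' (by positivity) (mul_nonneg ha hb)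
    nlinarith [sq_nonneg (a * b' - b * a')]
  have h5 : 0 ≤ a * b' + b * a' := add_nonneg (mul_nonneg ha hb') (mul_nonneg hb ha')
  have h6 := abs_le_of_sq_le_sq h2 h5
  linarith [(abs_le.1 h6).2]

/-- the form of a nonnegative Hermitian form -/
theorem BMP_lev_disc (A : ℂ × ℂ → ℝ) (p : ℂ × ℂ) (hA : ContDiffAt ℝ 2 A p) (c : ℝ)
    (h : ∀ a : ℂ × ℂ, c * (Complex.normSq a.1 + Complex.normSq a.2) ≤ lev A p a) :
    0 ≤ lev A p (1, 0) - c ∧ 0 ≤ lev A p (0, 1) - c ∧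
      lre A p ^ 2 + lim A p ^ 2 ≤ (lev A p (1, 0) - c) * (lev A p (0, 1) - c) := by
  refine BMP_disc _ _ _ _ fun x y u v => ?_
  have h1 := h (⟨x, y⟩, ⟨u, v⟩)
  rw [BMP_form A p hA] at h1
  simp only [Complex.normSq_apply] at h1
  linarith

theorem BMP : BMP_stmt := by
  refine ⟨?_, ?_, ?_, ?_⟩
  · intro O Ψ A B p hO hΨ hp hA hB
    have hc : ∀ g : ℂ × ℂ → ℝ, ContDiffAt ℝ 2 g (Ψ p) → ∀ a,
        lev (fun q => g (Ψ q)) p a = lev g (Ψ p) (fderiv ℂ Ψ p a) := fun g hg a =>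
      BMP_chain O Ψ g p a hO hΨ hp hg
    have l1 : fderiv ℂ Ψ p (1, 1) = fderiv ℂ Ψ p (1, 0) + fderiv ℂ Ψ p (0, 1) := by
      rw [← map_add]
      congr 1
      refine Prod.ext ?_ ?_ <;> simp
    have l2 : fderiv ℂ Ψ p (1, Complex.I) =
        fderiv ℂ Ψ p (1, 0) + Complex.I • fderiv ℂ Ψ p (0, 1) := by
      rw [← map_smul, ← map_add]
      congr 1
      refine Prod.ext ?_ ?_ <;> simp
    have hS : ∀ g : ℂ × ℂ → ℝ, ContDiffAt ℝ 2 g (Ψ p) →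
        lev (fun q => g (Ψ q)) p (1, 0) =
          lev g (Ψ p) (fderiv ℂ Ψ p (1, 0)) ∧
        lev (fun q => g (Ψ q)) p (0, 1) = lev g (Ψ p) (fderiv ℂ Ψ p (0, 1)) ∧
        lre (fun q => g (Ψ q)) p = (1 / 2) * (lev g (Ψ p) (fderiv ℂ Ψ p (1, 0) +
          fderiv ℂ Ψ p (0, 1)) - lev g (Ψ p) (fderiv ℂ Ψ p (1, 0)) -
            lev g (Ψ p) (fderiv ℂ Ψ p (0, 1))) ∧
        lim (fun q => g (Ψ q)) p = (1 / 2) * (lev g (Ψ p) (fderiv ℂ Ψ p (1, 0) +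
          Complex.I • fderiv ℂ Ψ p (0, 1)) - lev g (Ψ p) (fderiv ℂ Ψ p (1, 0)) -
            lev g (Ψ p) (fderiv ℂ Ψ p (0, 1))) := by
      intro g hg
      refine ⟨hc g hg _, hc g hg _, ?_, ?_⟩
      · unfold lre
        rw [hc g hg, hc g hg, hc g hg, l1]
      · unfold Pool.Agent.P2.lim
        rw [hc g hg, hc g hg, hc g hg, l2]
    obtain ⟨a1, a2, a3, a4⟩ := hS A hA
    obtain ⟨b1, b2, b3, b4⟩ := hS B hB
    have e : MA (fun q => A (Ψ q)) (fun q => B (Ψ q)) p =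
        lev (fun q => A (Ψ q)) p (1, 0) * lev (fun q => B (Ψ q)) p (0, 1) +
        lev (fun q => A (Ψ q)) p (0, 1) * lev (fun q => B (Ψ q)) p (1, 0) -
        2 * (lre (fun q => A (Ψ q)) p * lre (fun q => B (Ψ q)) p +
          lim (fun q => A (Ψ q)) p * lim (fun q => B (Ψ q)) p) := rfl
    rw [e, a1, a2, a3, a4, b1, b2, b3, b4]
    have e2 : MA A B (Ψ p) = lev A (Ψ p) (1, 0) * lev B (Ψ p) (0, 1) +
        lev A (Ψ p) (0, 1) * lev B (Ψ p) (1, 0) -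
        2 * (lre A (Ψ p) * lre B (Ψ p) + lim A (Ψ p) * lim B (Ψ p)) := rfl
    rw [e2]
    generalize fderiv ℂ Ψ p (1, 0) = c1
    generalize fderiv ℂ Ψ p (0, 1) = c2
    rw [BMP_form A (Ψ p) hA c1, BMP_form A (Ψ p) hA c2, BMP_form A (Ψ p) hA (c1 + c2),
      BMP_form A (Ψ p) hA (c1 + Complex.I • c2), BMP_form B (Ψ p) hB c1,
      BMP_form B (Ψ p) hB c2, BMP_form B (Ψ p) hB (c1 + c2),
      BMP_form B (Ψ p) hB (c1 + Complex.I • c2)]
    simp only [Complex.normSq_apply, Prod.fst_add, Prod.snd_add, Prod.smul_fst, Prod.smul_snd,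
      Complex.add_re, Complex.add_im, smul_eq_mul, Complex.mul_re, Complex.mul_im, Complex.I_re,
      Complex.I_im, Complex.sub_re, Complex.sub_im, zero_mul, one_mul, zero_sub, zero_add]
    generalize lev A (Ψ p) (1, 0) = x1
    generalize lev A (Ψ p) (0, 1) = x2
    generalize lre A (Ψ p) = x3
    generalize lim A (Ψ p) = x4
    generalize lev B (Ψ p) (1, 0) = y1
    generalize lev B (Ψ p) (0, 1) = y2
    generalize lre B (Ψ p) = y3
    generalize lim B (Ψ p) = y4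
    ring
  · intro A B p hA hB h1 h2
    have d1 := BMP_lev_disc A p hA 0 (fun a => by rw [zero_mul]; exact h1 a)
    have d2 := BMP_lev_disc B p hB 0 (fun a => by rw [zero_mul]; exact h2 a)
    rw [sub_zero, sub_zero] at d1 d2
    have := BMP_pos _ _ _ _ _ _ _ _ d1 d2
    unfold MA
    exact this
  · intro A B p c hA hB hc h1 h2
    have d1 := BMP_lev_disc A p hA 0 (fun a => by rw [zero_mul]; exact h1 a)
    have d2 := BMP_lev_disc B p hB c h2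
    rw [sub_zero, sub_zero] at d1
    have := BMP_pos _ _ _ _ _ _ _ _ d1 d2
    unfold MA
    linarith
  · intro A p z hA h1
    have h2 := h1 (1, -z)
    rw [BMP_form A p hA] at h2 ⊢
    simp only [Complex.normSq_apply, Complex.one_re, Complex.one_im, Complex.neg_re,
      Complex.neg_im] at h2 ⊢
    linarith

end Pool.Agent.P2B
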