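import Pool.Agent.helper56.P2.SpecU

set_option autoImplicit false

/-! # P2 (MP_063734_an), row UJAC: Jacobians -/

namespace Pool.Agent.P2U

open MeasureTheory Set Filter Topology Metric Complex
open scoped ENNReal ContDiff

theorem UJAC_div (f g : ℂ × ℂ → ℂ) (f' g' : ℂ × ℂ →L[ℂ] ℂ) (p : ℂ × ℂ) (hf : HasFDerivAt f f' p)
    (hg : HasFDerivAt g g' p) (h0 : g p ≠ 0) :
    ∃ L : ℂ × ℂ →L[ℂ] ℂ, HasFDerivAt (fun q => f q / g q) L p ∧
      ∀ ξ, L ξ = (g p * f' ξ - f p * g' ξ) / g p ^ 2 := by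
  have hi : HasFDerivAt (fun q => (g q)⁻¹) (-(g p ^ 2)⁻¹ • g') p :=
    HasDerivAt.comp_hasFDerivAt (h₂ := fun z : ℂ => z⁻¹) p (hasDerivAt_inv h0) hg
  have hm := hf.mul hi
  refine ⟨_, hm.congr_of_eventuallyEq (Eventually.of_forall fun q => ?_), fun ξ => ?_⟩
  · simp [div_eq_mul_inv]
  · simp only [add_apply, smul_apply, smul_eq_mul]
    field_simp
    ring

theorem UJAC_dxdiff (f : ℂ × ℂ → ℂ) (p e : ℂ × ℂ) (hf : AnalyticAt ℂ f p) :
    DifferentiableAt ℂ (fun q => fderiv ℂ f q e) p :=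
  (hf.fderiv.differentiableAt).clm_apply (differentiableAt_const _)

theorem UJAC_cx (P Q : ℂ × ℂ → ℂ) (p : ℂ × ℂ) (hP : AnalyticAt ℂ P p) (hQ : AnalyticAt ℂ Q p) :
    DifferentiableAt ℂ (cx P Q) p :=
  (hQ.differentiableAt.mul (UJAC_dxdiff P p (1, 0) hP)).sub
    (hP.differentiableAt.mul (UJAC_dxdiff Q p (1, 0) hQ))

theorem UJAC_cv (P Q : ℂ × ℂ → ℂ) (p : ℂ × ℂ) (hP : AnalyticAt ℂ P p) (hQ : AnalyticAt ℂ Q p) :
    DifferentiableAt ℂ (cv P Q) p :=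
  (hQ.differentiableAt.mul (UJAC_dxdiff P p (0, 1) hP)).sub
    (hP.differentiableAt.mul (UJAC_dxdiff Q p (0, 1) hQ))

theorem UJAC_det1 (L : ℂ →L[ℂ] ℂ) : |(L.restrictScalars ℝ).det| = ‖L 1‖ ^ 2 := by
  have h1 : (L.restrictScalars ℝ).det =
      LinearMap.det ((L : ℂ →ₗ[ℂ] ℂ).restrictScalars ℝ) := rfl
  have h2 : LinearMap.det (L : ℂ →ₗ[ℂ] ℂ) = L 1 := by
    rw [LinearMap.det_ring]
    rfl
  rw [h1, LinearMap.det_restrictScalars, h2, Algebra.norm_complex_apply, Complex.normSq_eq_norm_sq,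
    abs_of_nonneg (by positivity)]

theorem UJAC (hDET : UDET_stmt) : UJAC_stmt := by
  intro P Q a r hol p hp hQ0
  have hP := hol.hP p hp
  have hQ := hol.hQ p hp
  obtain ⟨L2, hL2, hL2v⟩ := UJAC_div P Q _ _ p hP.differentiableAt.hasFDerivAt
    hQ.differentiableAt.hasFDerivAt hQ0
  have hx : L2 (1, 0) = cx P Q p / Q p ^ 2 := by
    rw [hL2v]
    rfl
  have hv : L2 (0, 1) = cv P Q p / Q p ^ 2 := by
    rw [hL2v]
    rfl
  refine ⟨fun hc0 => ?_, ?_, ?_⟩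
  · obtain ⟨L1, hL1, hL1v⟩ := UJAC_div (fun q => - cx P Q q) (cv P Q) _ _ p
      (UJAC_cx P Q p hP hQ).hasFDerivAt.neg (UJAC_cv P Q p hP hQ).hasFDerivAt hc0
    refine ⟨(L1.prod L2).restrictScalars ℝ, (hL1.prodMk hL2).restrictScalars ℝ, ?_⟩
    rw [hDET]
    have e1 : (L1.prod L2 (1, 0)).1 * (L1.prod L2 (0, 1)).2 -
        (L1.prod L2 (1, 0)).2 * (L1.prod L2 (0, 1)).1 = nn P Q p / (cv P Q p ^ 2 * Q p ^ 2) := by
      have h3 : L1 (1, 0) * cv P Q p - L1 (0, 1) * cx P Q p = L1 (ef P Q p) := by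
        have : ef P Q p = cv P Q p • ((1 : ℂ), (0 : ℂ)) - cx P Q p • ((0 : ℂ), (1 : ℂ)) := by
          simp [ef]
        rw [this, map_sub, map_smul, map_smul]
        simp only [smul_eq_mul]
        ring
      have h4 : L1 (ef P Q p) = nn P Q p / cv P Q p ^ 2 := by
        rw [hL1v]
        simp only [nn, neg_apply]
        congr 1
        ring
      show L1 (1, 0) * L2 (0, 1) - L2 (1, 0) * L1 (0, 1) = _
      rw [hx, hv]
      have h5 : L1 (1, 0) * (cv P Q p / Q p ^ 2) - cx P Q p / Q p ^ 2 * L1 (0, 1) =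
          (L1 (1, 0) * cv P Q p - L1 (0, 1) * cx P Q p) / Q p ^ 2 := by
        ring
      rw [h5, h3, h4, div_div]
    rw [e1, norm_div, norm_mul, norm_pow, norm_pow, div_pow, mul_pow, ← pow_mul, ← pow_mul]
  · refine ⟨(L2.prod (ContinuousLinearMap.snd ℂ ℂ ℂ)).restrictScalars ℝ,
      (hL2.prodMk hasFDerivAt_snd).restrictScalars ℝ, ?_⟩
    rw [hDET]
    have e1 : (L2.prod (ContinuousLinearMap.snd ℂ ℂ ℂ) (1, 0)).1 *
        (L2.prod (ContinuousLinearMap.snd ℂ ℂ ℂ) (0, 1)).2 -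
        (L2.prod (ContinuousLinearMap.snd ℂ ℂ ℂ) (1, 0)).2 *
        (L2.prod (ContinuousLinearMap.snd ℂ ℂ ℂ) (0, 1)).1 = cx P Q p / Q p ^ 2 := by
      show L2 (1, 0) * (1 : ℂ) - (0 : ℂ) * L2 (0, 1) = _
      rw [hx]
      ring
    rw [e1, norm_div, norm_pow, div_pow, ← pow_mul]
  · have h3 : HasFDerivAt (fun x : ℂ => P (x, p.2) / Q (x, p.2))
        (L2.comp (ContinuousLinearMap.inl ℂ ℂ ℂ)) p.1 :=
      HasFDerivAt.comp (g := fun q : ℂ × ℂ => P q / Q q) p.1 hL2 (hasFDerivAt_prodMk_left p.1 p.2)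
    refine ⟨_, h3.restrictScalars ℝ, ?_⟩
    rw [UJAC_det1]
    show ‖L2 (1, 0)‖ ^ 2 = _
    rw [hx, norm_div, norm_pow, div_pow, ← pow_mul]

end Pool.Agent.P2U
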