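import Pool.Agent.helper56.P2.SpecU

set_option autoImplicit false

/-! # P2 (MP_063734_an), row UOBS: obstacles of a branch -/

namespace Pool.Agent.P2U

open MeasureTheory Set Filter Topology Metric Complex
open scoped ENNReal ContDiff

/-- a branch restricts to smaller discs -/
theorem UOBS_mono (P Q : ℂ × ℂ → ℂ) (R ρ : ℝ) (x0 : ℂ) (X : ℂ → ℂ) (h : Br P Q R x0 X)
    (hρ : ρ ≤ R) : Br P Q ρ x0 X where
  an := h.an.mono (ball_subset_ball hρ)
  ini := h.ini
  lt := fun w hw => h.lt w (ball_subset_ball hρ hw)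
  eq := fun w hw => h.eq w (ball_subset_ball hρ hw)

/-- proportional vectors -/
theorem UOBS_prop (a b c d u v : ℂ) (hab : a ≠ 0 ∨ b ≠ 0) (hcd : c ≠ 0 ∨ d ≠ 0)
    (h : a * d = b * c) : u * b = v * a ↔ u * d = v * c := by
  constructor
  · intro h1
    rcases hab with ha | hb
    · refine mul_left_cancel₀ ha ?_
      calc a * (u * d) = u * (a * d) := by ring
        _ = c * (u * b) := by rw [h]; ring
        _ = a * (v * c) := by rw [h1]; ring
    · refine mul_left_cancel₀ hb ?_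
      calc b * (u * d) = (u * b) * d := by ring
        _ = v * (a * d) := by rw [h1]; ring
        _ = b * (v * c) := by rw [h]; ring
  · intro h1
    rcases hcd with hc | hd
    · refine mul_left_cancel₀ hc ?_
      calc c * (u * b) = u * (b * c) := by ring
        _ = a * (u * d) := by rw [← h]; ring
        _ = c * (v * a) := by rw [h1]; ring
    · refine mul_left_cancel₀ hd ?_
      calc d * (u * b) = (u * d) * b := by ring
        _ = v * (b * c) := by rw [h1]; ring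
        _ = d * (v * a) := by rw [← h]; ring

theorem UOBS (hGRF : UGRF_stmt) (hUNI : UUNI_stmt) (hEXT : UEXT_stmt) : UOBS_stmt := by
  intro P Q r r0 hol hr0 hr x0 hx0 hcx0 hnu
  have hr' : 0 < r := hr0.trans hr
  have hq0 : (x0, (0 : ℂ)) ∈ TB 2 r := ⟨by show ‖x0‖ < 2; linarith, by simpa using hr'⟩
  -- the radii
  set S : Set ℝ := {ρ | 0 < ρ ∧ ρ ≤ r0 ∧ Unf P Q ρ x0} with hS
  have hne : ∃ ρ, ρ ∈ S := by
    obtain ⟨ε, δ, hε, hε0, hδ, Y, hsub, hY, hY0, hYb, hYe⟩ :=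
      hGRF P Q r hol (x0, 0) hq0 hcx0 (1 - ‖x0‖) (by linarith)
    have hBr : Br P Q δ x0 Y := by
      refine ⟨hY, hY0, fun w hw => ?_, fun w hw => ?_⟩
      · have h1 := hYb w hw
        rw [mem_ball, dist_eq_norm] at h1
        have h2 : ‖Y w‖ ≤ ‖Y w - x0‖ + ‖x0‖ := by
          simpa using norm_add_le (Y w - x0) x0
        have h3 : ‖Y w - x0‖ < ε := h1
        linarith
      · exact (hYe (Y w) (hYb w hw) w hw).2 rfl
    exact ⟨min δ r0, lt_min hδ hr0, min_le_right _ _, Y, UOBS_mono P Q δ _ x0 Y hBr (min_le_left _ _)⟩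
  have hbdd : BddAbove S := ⟨r0, fun ρ hρ => hρ.2.1⟩
  set R : ℝ := sSup S with hR
  have hR0 : 0 < R := by
    obtain ⟨ρ, hρ⟩ := hne
    exact lt_of_lt_of_le hρ.1 (le_csSup hbdd hρ)
  have hRr0 : R ≤ r0 := csSup_le hne fun ρ hρ => hρ.2.1
  -- one branch on the ball of radius R
  have hunf : Unf P Q R x0 := by
    have hex : ∀ ρ : ℝ, ∃ X : ℂ → ℂ, ρ ∈ S → Br P Q ρ x0 X := by
      intro ρ
      by_cases hρ : ρ ∈ S
      · obtain ⟨X, hX⟩ := hρ.2.2
        exact ⟨X, fun _ => hX⟩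
      · exact ⟨0, fun h => absurd h hρ⟩
    choose Xb hXb using hex
    have hch : ∀ w : ℂ, ∃ ρ : ℝ, w ∈ ball (0 : ℂ) R → ρ ∈ S ∧ ‖w‖ < ρ := by
      intro w
      by_cases hw : w ∈ ball (0 : ℂ) R
      · rw [mem_ball, dist_zero_right] at hw
        obtain ⟨ρ, hρ, hρ2⟩ := exists_lt_of_lt_csSup hne hw
        exact ⟨ρ, fun _ => ⟨hρ, hρ2⟩⟩
      · exact ⟨0, fun h => absurd h hw⟩
    choose ρw hρw using hch
    have hagree : ∀ ρ ∈ S, ∀ w ∈ ball (0 : ℂ) ρ, Xb (ρw w) w = Xb ρ w := by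
      intro ρ hρ w hw
      have hwR : w ∈ ball (0 : ℂ) R := ball_subset_ball (le_csSup hbdd hρ) hw
      obtain ⟨h1, h2⟩ := hρw w hwR
      have hw' : w ∈ ball (0 : ℂ) (ρw w) := by rwa [mem_ball, dist_zero_right]
      rcases le_total ρ (ρw w) with hle | hle
      · exact (hUNI P Q r hol x0 ρ (ρw w) (Xb ρ) (Xb (ρw w)) hx0 hcx0 hρ.1 hle
          (h1.2.1.trans hr.le) (hXb ρ hρ) (hXb _ h1) hw).symm
      · exact hUNI P Q r hol x0 (ρw w) ρ (Xb (ρw w)) (Xb ρ) hx0 hcx0 h1.1 hle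
          (hρ.2.1.trans hr.le) (hXb _ h1) (hXb ρ hρ) hw'
    refine ⟨fun w => Xb (ρw w) w, ?_, ?_, ?_, ?_⟩
    · intro w hw
      obtain ⟨h1, h2⟩ := hρw w hw
      have hw' : w ∈ ball (0 : ℂ) (ρw w) := by rwa [mem_ball, dist_zero_right]
      have hd : DifferentiableAt ℂ (Xb (ρw w)) w :=
        ((hXb _ h1).an).differentiableAt (isOpen_ball.mem_nhds hw')
      have he : (fun w' => Xb (ρw w') w') =ᶠ[𝓝 w] Xb (ρw w) := by
        filter_upwards [isOpen_ball.mem_nhds hw'] with w' hw''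
        exact hagree _ h1 w' hw''
      exact (hd.congr_of_eventuallyEq he).differentiableWithinAt
    · have h0 : (0 : ℂ) ∈ ball (0 : ℂ) R := mem_ball_self hR0
      exact (hXb _ (hρw 0 h0).1).ini
    · intro w hw
      obtain ⟨h1, h2⟩ := hρw w hw
      exact (hXb _ h1).lt w (by rwa [mem_ball, dist_zero_right])
    · intro w hw
      obtain ⟨h1, h2⟩ := hρw w hw
      exact (hXb _ h1).eq w (by rwa [mem_ball, dist_zero_right])
  obtain ⟨X, hX⟩ := hunf
  have hRlt : R < r0 := by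
    rcases lt_or_eq_of_le hRr0 with h | h
    · exact h
    · exact absurd ⟨X, h ▸ hX⟩ hnu
  by_contra hcon
  have hno : ∀ w1 x1 : ℂ, ‖w1‖ = R → Lim X R w1 x1 → ‖x1‖ ≤ 1 →
      ‖x1‖ < 1 ∧ cx P Q (x1, w1) ≠ 0 := by
    intro w1 x1 h1 h2 h3
    have h4 : ¬ (‖x1‖ = 1 ∨ (‖x1‖ < 1 ∧ cx P Q (x1, w1) = 0)) := fun h =>
      hcon ⟨R, X, w1, x1, hR0, hRlt, hX, h1, h2, h⟩
    rw [not_or, not_and] at h4
    have h5 : ‖x1‖ < 1 := lt_of_le_of_ne h3 h4.1
    exact ⟨h5, h4.2 h5⟩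
  have hcd : P (x0, 0) ≠ 0 ∨ Q (x0, 0) ≠ 0 := hol.ne _ hq0
  -- local continuation at every point of the circle
  have hloc : ∀ w1 : ℂ, ‖w1‖ = R → ∃ δ : ℝ, 0 < δ ∧ ∃ Y : ℂ → ℂ, DifferentiableOn ℂ Y (ball w1 δ) ∧
      EqOn X Y (ball 0 R ∩ ball w1 δ) ∧ ∀ w ∈ ball w1 δ,
      (Y w, w) ∈ {q : ℂ × ℂ | ‖q.1‖ < 1 ∧ P q * Q (x0, 0) = Q q * P (x0, 0)} := by
    intro w1 hw1
    have hw10 : w1 ≠ 0 := by
      intro h
      rw [h, norm_zero] at hw1
      exact hR0.ne hw1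
    -- a sequence in the ball
    set wk : ℕ → ℂ := fun k => ((1 - 1 / ((k : ℝ) + 2) : ℝ) : ℂ) * w1 with hwk
    have hwk1 : ∀ k, ‖wk k‖ < R := by
      intro k
      have h1 : (0 : ℝ) < 1 / ((k : ℝ) + 2) := by positivity
      have h2 : 1 / ((k : ℝ) + 2) ≤ 1 := by
        rw [div_le_one (by positivity)]
        have : (0 : ℝ) ≤ k := Nat.cast_nonneg k
        linarith
      rw [hwk]
      simp only [norm_mul, Complex.norm_real, Real.norm_eq_abs]
      rw [abs_of_nonneg (by linarith), hw1]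
      nlinarith
    have hwk2 : Tendsto wk atTop (𝓝 w1) := by
      have h1 : Tendsto (fun k : ℕ => (1 - 1 / ((k : ℝ) + 2) : ℝ)) atTop (𝓝 (1 - 0)) := by
        refine tendsto_const_nhds.sub ?_
        have h2 : Tendsto (fun k : ℕ => ((k : ℝ) + 2)) atTop atTop :=
          tendsto_atTop_add_const_right _ _ tendsto_natCast_atTop_atTop
        have h3 := h2.inv_tendsto_atTop
        refine h3.congr fun k => ?_
        simp
      have h2 : Tendsto (fun k : ℕ => ((1 - 1 / ((k : ℝ) + 2) : ℝ) : ℂ)) atTop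
          (𝓝 (((1 - 0 : ℝ)) : ℂ)) := (Complex.continuous_ofReal.tendsto _).comp h1
      have h3 := h2.mul_const w1
      have h4 : (((1 - 0 : ℝ)) : ℂ) * w1 = w1 := by simp
      rw [h4] at h3
      exact h3
    have hXk : ∀ k, X (wk k) ∈ closedBall (0 : ℂ) 1 := by
      intro k
      rw [mem_closedBall, dist_zero_right]
      exact (hX.lt (wk k) (by rw [mem_ball, dist_zero_right]; exact hwk1 k)).le
    obtain ⟨x1, hx1, φ, hφ, hlim⟩ := (isCompact_closedBall (0 : ℂ) 1).tendsto_subseq hXk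
    have hLim : Lim X R w1 x1 := ⟨fun k => wk (φ k), fun k => hwk1 _,
      hwk2.comp hφ.tendsto_atTop, hlim⟩
    rw [mem_closedBall, dist_zero_right] at hx1
    obtain ⟨hx1', hcx1⟩ := hno w1 x1 hw1 hLim hx1
    have hq1 : (x1, w1) ∈ TB 2 r := ⟨by show ‖x1‖ < 2; linarith, by show ‖w1‖ < r; linarith⟩
    obtain ⟨ε, δ, hε, hε0, hδ, Y, hsub, hY, hY0, hYb, hYe⟩ :=
      hGRF P Q r hol (x1, w1) hq1 hcx1 (1 - ‖x1‖) (by linarith)
    simp only at hsub hY hY0 hYb hYe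
    have hab : P (x1, w1) ≠ 0 ∨ Q (x1, w1) ≠ 0 := hol.ne _ hq1
    -- the limit equation
    have hpair : Tendsto (fun k => (X (wk (φ k)), wk (φ k))) atTop (𝓝 (x1, w1)) :=
      (hlim).prodMk_nhds (hwk2.comp hφ.tendsto_atTop)
    have heq1 : P (x1, w1) * Q (x0, 0) = Q (x1, w1) * P (x0, 0) := by
      have hPl := ((hol.hP _ hq1).continuousAt.tendsto.comp hpair).mul_const (Q (x0, 0))
      have hQl := ((hol.hQ _ hq1).continuousAt.tendsto.comp hpair).mul_const (P (x0, 0))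
      refine tendsto_nhds_unique hPl (hQl.congr fun k => ?_)
      exact (hX.eq (wk (φ k)) (by rw [mem_ball, dist_zero_right]; exact hwk1 _)).symm
    have hprop : ∀ u v : ℂ, u * Q (x1, w1) = v * P (x1, w1) ↔ u * Q (x0, 0) = v * P (x0, 0) :=
      fun u v => UOBS_prop _ _ _ _ u v hab hcd heq1
    refine ⟨δ, hδ, Y, hY, ?_, ?_⟩
    · -- identity theorem
      have hUo : IsOpen (ball (0 : ℂ) R ∩ ball w1 δ) := isOpen_ball.inter isOpen_ball
      have hUc : IsPreconnected (ball (0 : ℂ) R ∩ ball w1 δ) :=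
        ((convex_ball (0 : ℂ) R).inter (convex_ball w1 δ)).isPreconnected
      have hXa : AnalyticOnNhd ℂ X (ball (0 : ℂ) R ∩ ball w1 δ) :=
        (hX.an.mono inter_subset_left).analyticOnNhd hUo
      have hYa : AnalyticOnNhd ℂ Y (ball (0 : ℂ) R ∩ ball w1 δ) :=
        (hY.mono inter_subset_right).analyticOnNhd hUo
      -- a good index
      have h1 : ∀ᶠ k in atTop, wk (φ k) ∈ ball w1 δ :=
        (hwk2.comp hφ.tendsto_atTop).eventually (isOpen_ball.mem_nhds (mem_ball_self hδ))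
      have h2 : ∀ᶠ k in atTop, X (wk (φ k)) ∈ ball x1 ε :=
        hlim.eventually (isOpen_ball.mem_nhds (mem_ball_self hε))
      obtain ⟨k, hk1, hk2⟩ := (h1.and h2).exists
      have hkR : wk (φ k) ∈ ball (0 : ℂ) R := by
        rw [mem_ball, dist_zero_right]
        exact hwk1 _
      have hcont : ContinuousAt X (wk (φ k)) :=
        (hX.an.differentiableAt (isOpen_ball.mem_nhds hkR)).continuousAt
      have hev : X =ᶠ[𝓝 (wk (φ k))] Y := by
        filter_upwards [isOpen_ball.mem_nhds hkR, isOpen_ball.mem_nhds hk1,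
          hcont.preimage_mem_nhds (isOpen_ball.mem_nhds hk2)] with w hw1' hw2' hw3'
        exact (hYe (X w) hw3' w hw2').1 ((hprop _ _).2 (hX.eq w hw1'))
      exact hXa.eqOn_of_preconnected_of_eventuallyEq hYa hUc ⟨hkR, hk1⟩ hev
    · intro w hw
      refine ⟨?_, ?_⟩
      · have h1 := hYb w hw
        rw [mem_ball, dist_eq_norm] at h1
        have h2 : ‖Y w‖ ≤ ‖Y w - x1‖ + ‖x1‖ := by
          simpa using norm_add_le (Y w - x1) x1
        show ‖Y w‖ < 1
        linarith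
      · exact (hprop _ _).1 ((hYe (Y w) (hYb w hw) w hw).2 rfl)
  obtain ⟨R', hRR', X', hX', hXX', hG⟩ := hEXT X R
    {q : ℂ × ℂ | ‖q.1‖ < 1 ∧ P q * Q (x0, 0) = Q q * P (x0, 0)} hR0 hX.an
    (fun w hw => ⟨hX.lt w hw, hX.eq w hw⟩) hloc
  have hBr : Br P Q R' x0 X' := by
    refine ⟨hX', ?_, fun w hw => (hG w hw).1, fun w hw => (hG w hw).2⟩
    rw [← hXX' (mem_ball_self hR0)]
    exact hX.ini
  have hmem : min R' r0 ∈ S := ⟨lt_min (hR0.trans hRR') hr0, min_le_right _ _, X',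
    UOBS_mono P Q R' _ x0 X' hBr (min_le_left _ _)⟩
  have hle : min R' r0 ≤ R := le_csSup hbdd hmem
  exact absurd (lt_min hRR' hRlt) (not_lt.2 hle)

end Pool.Agent.P2U
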