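import Pool.Agent.helper15.P2.SpecA2
import Pool.Agent.helper75.P2.MAN_C
import Pool.Agent.helper26.P2.IG

set_option autoImplicit false

/-! # P2 (MP_063734_an), row ABX -/

open scoped ContDiff Topology ENNReal
open MeasureTheory Filter Set Metric MvPolynomial Pool.Agent.helper37.QA

namespace Pool.Agent.P2A

open Pool.Agent.P2

/-! ### additivity -/

theorem ABX_lev_add {g g' : E3 → ℝ} {Z : E3} (E : E3) (hg : ContDiffAt ℝ 2 g Z)
    (hg' : ContDiffAt ℝ 2 g' Z) :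
    lev (fun W => g W + g' W) Z E = lev g Z E + lev g' Z E := by
  unfold lev
  have hlin : ContDiffAt ℝ 2 (fun t : ℂ => Z + t • E) 0 :=
    (contDiff_const.add ((contDiff_id (E := ℂ)).smul contDiff_const)).contDiffAt
  have h0 : Z + (0 : ℂ) • E = Z := by rw [zero_smul, add_zero]
  have h1 : ContDiffAt ℝ 2 (fun t : ℂ => g (Z + t • E)) 0 := by
    refine ContDiffAt.comp (0 : ℂ) ?_ hlin
    rw [h0]
    exact hg
  have h2 : ContDiffAt ℝ 2 (fun t : ℂ => g' (Z + t • E)) 0 := by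
    refine ContDiffAt.comp (0 : ℂ) ?_ hlin
    rw [h0]
    exact hg'
  exact Pool.Agent.P2I.IG_lap_add h1 h2

theorem ABX_en_add {d : ℕ} (f : Endo 2 d) (N : ℕ) {g g' : E3 → ℝ} {Z : E3} (X Y : E3)
    (hg : ContDiffAt ℝ 2 g Z) (hg' : ContDiffAt ℝ 2 g' Z) :
    en f N (fun W => g W + g' W) Z X Y = en f N g Z X Y + en f N g' Z X Y := by
  unfold en
  rw [ABX_lev_add _ hg hg', add_div]

theorem ABX_ed_add {d : ℕ} (f : Endo 2 d) (N : ℕ) {g g' : E3 → ℝ} {Z : E3}
    (hg : ContDiffAt ℝ 2 g Z) (hg' : ContDiffAt ℝ 2 g' Z) :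
    ed f N (fun W => g W + g' W) Z = ed f N g Z + ed f N g' Z := by
  unfold ed
  rw [ABX_en_add f N _ _ hg hg', ABX_en_add f N _ _ hg hg', ABX_en_add f N _ _ hg hg', ← add_div]
  congr 1
  ring

theorem ABX_ed_zero {d : ℕ} (f : Endo 2 d) (N : ℕ) (Z : E3) : ed f N (fun _ => 0) Z = 0 := by
  have h1 : ∀ E : E3, lev (fun _ : E3 => (0 : ℝ)) Z E = 0 := by
    intro E
    unfold lev lap
    rw [iteratedFDeriv_const_of_ne (by norm_num)]
    simp
  unfold ed en
  rw [h1, h1, h1]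
  simp

theorem ABX_ed_sum {d : ℕ} (f : Endo 2 d) (N : ℕ) {Z : E3}
    (h1 : ∀ j ≤ N, ContDiffAt ℝ 2 (psj f j N) Z) (h2 : ∀ n ≤ N, ContDiffAt ℝ 2 (psn f n N) Z) :
    ∀ n ≤ N, ed f N (psn f n N) Z = ∑ j ∈ Finset.range n, ed f N (psj f j N) Z := by
  intro n
  induction n with
  | zero =>
    intro _
    rw [Finset.range_zero, Finset.sum_empty]
    have e : psn f 0 N = fun _ => 0 := by
      funext Z
      unfold psn
      rw [Finset.range_zero, Finset.sum_empty]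
    rw [e]
    exact ABX_ed_zero f N Z
  | succ n ih =>
    intro hn
    have hn' : n ≤ N := by omega
    rw [Finset.sum_range_succ, ← ih hn']
    have e : psn f (n + 1) N = fun W => psn f n N W + psj f n N W := by
      funext W
      unfold psn
      rw [Finset.sum_range_succ]
    rw [e]
    exact ABX_ed_add f N (h2 n hn') (h1 n hn')

/-! ### change of variables -/

/-- the coordinate which is `1` in the chart -/
def ABX_i (ι : Fin 2) : Fin 3 := if ι = 0 then 0 else 1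

/-- coordinates `(a, (u, v))` -/
noncomputable def ABX_e (ι : Fin 2) : E3 ≃ᵐ ℂ × (ℂ × ℂ) :=
  (MeasurableEquiv.piFinSuccAbove (fun _ : Fin 3 => ℂ) (ABX_i ι)).trans
    (MeasurableEquiv.prodCongr (MeasurableEquiv.refl ℂ) MeasurableEquiv.finTwoArrow)

theorem ABX_e_mp (ι : Fin 2) : MeasurePreserving (ABX_e ι) := by
  unfold ABX_e
  have h1 := volume_preserving_piFinSuccAbove (fun _ : Fin 3 => ℂ) (ABX_i ι)
  have h2 : MeasurePreserving (Prod.map (id : ℂ → ℂ)
      (MeasurableEquiv.finTwoArrow : (Fin 2 → ℂ) → ℂ × ℂ)) :=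
    (MeasurePreserving.id (volume : Measure ℂ)).prod (volume_preserving_finTwoArrow ℂ)
  exact h2.comp h1

theorem ABX_e_smul (ι : Fin 2) (a : ℂ) (w : ℂ × ℂ) :
    (ABX_e ι).symm (a, a • w) = a • cht ι w.1 w.2 := by
  rw [MeasurableEquiv.symm_apply_eq]
  unfold ABX_e
  have h : ∀ Y : E3, ((MeasurableEquiv.piFinSuccAbove (fun _ : Fin 3 => ℂ) (ABX_i ι)).trans
      (MeasurableEquiv.prodCongr (MeasurableEquiv.refl ℂ) MeasurableEquiv.finTwoArrow)) Y =
      (Y (ABX_i ι), (Y ((ABX_i ι).succAbove 0), Y ((ABX_i ι).succAbove 1))) := fun Y => rfl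
  rw [h]
  by_cases hι : ι = 0
  · subst hι
    refine Prod.ext ?_ (Prod.ext ?_ ?_)
    · show a = a • (cht 0 w.1 w.2) 0
      simp [cht]
    · show a • w.1 = a • (cht 0 w.1 w.2) 1
      simp [cht]
    · show a • w.2 = a • (cht 0 w.1 w.2) 2
      simp [cht]
  · have hi : ι = 1 := by omega
    subst hi
    refine Prod.ext ?_ (Prod.ext ?_ ?_)
    · show a = a • (cht 1 w.1 w.2) 1
      simp [cht]
    · show a • w.1 = a • (cht 1 w.1 w.2) 0
      simp [cht]
    · show a • w.2 = a • (cht 1 w.1 w.2) 2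
      simp [cht]

theorem ABX_scale (a : ℂ) (ha : a ≠ 0) (G : ℂ × ℂ → ENNReal) (hG : Measurable G) :
    ∫⁻ w, G w = ENNReal.ofReal (Complex.normSq (a ^ 2)) * ∫⁻ w, G (a • w) := by
  have hn : 0 < Complex.normSq (a ^ 2) := Complex.normSq_pos.2 (pow_ne_zero 2 ha)
  set L : (ℂ × ℂ) →ₗ[ℂ] (ℂ × ℂ) := a • LinearMap.id with hL
  have hdetC : LinearMap.det L = a ^ 2 := by
    rw [hL, LinearMap.det_smul, LinearMap.det_id, mul_one]
    congr 1
    simp
  have hdet : LinearMap.det (L.restrictScalars ℝ) = Complex.normSq (a ^ 2) := by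
    rw [LinearMap.det_restrictScalars, hdetC, Algebra.norm_complex_apply]
  have hdet0 : LinearMap.det (L.restrictScalars ℝ) ≠ 0 := by
    rw [hdet]
    exact hn.ne'
  have hHaar : (volume : Measure (ℂ × ℂ)).IsAddHaarMeasure := by
    rw [Measure.volume_eq_prod]
    infer_instance
  have h1 := Measure.map_linearMap_addHaar_eq_smul_addHaar (volume : Measure (ℂ × ℂ)) hdet0
  have hm : Measurable (L.restrictScalars ℝ) :=
    (LinearMap.continuous_of_finiteDimensional (L.restrictScalars ℝ)).measurable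
  have h2 : ∫⁻ w, G (a • w) = ∫⁻ w, G w ∂(Measure.map (L.restrictScalars ℝ) volume) := by
    rw [lintegral_map hG hm]
    rfl
  rw [h2, h1, lintegral_smul_measure, hdet, smul_eq_mul, ← mul_assoc,
    ← ENNReal.ofReal_mul hn.le, abs_of_pos (inv_pos.2 hn), mul_inv_cancel₀ hn.ne',
    ENNReal.ofReal_one, one_mul]

/-- the annulus -/
def ABX_An (R : ℝ) : Set ℂ := closedBall 0 (1 / R) \ ball 0 (1 / (2 * R))

theorem ABX_An_meas (R : ℝ) : MeasurableSet (ABX_An R) :=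
  measurableSet_closedBall.diff measurableSet_ball

theorem ABX_An_pos {R : ℝ} (hR : 0 < R) : volume (ABX_An R) ≠ 0 := by
  have h1 : ball ((3 / (4 * R) : ℝ) : ℂ) (1 / (8 * R)) ⊆ ABX_An R := by
    intro z hz
    rw [mem_ball, dist_eq_norm] at hz
    have hc : ‖((3 / (4 * R) : ℝ) : ℂ)‖ = 3 / (4 * R) := by
      rw [Complex.norm_real, Real.norm_of_nonneg (by positivity)]
    have h2 : ‖z‖ ≤ 3 / (4 * R) + 1 / (8 * R) := by
      calc ‖z‖ = ‖((3 / (4 * R) : ℝ) : ℂ) + (z - ((3 / (4 * R) : ℝ) : ℂ))‖ := by congr 1; ring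
        _ ≤ ‖((3 / (4 * R) : ℝ) : ℂ)‖ + ‖z - ((3 / (4 * R) : ℝ) : ℂ)‖ := norm_add_le _ _
        _ ≤ _ := by rw [hc]; linarith
    have h3 : 3 / (4 * R) - 1 / (8 * R) ≤ ‖z‖ := by
      have h4 : ‖((3 / (4 * R) : ℝ) : ℂ)‖ ≤ ‖z‖ + ‖z - ((3 / (4 * R) : ℝ) : ℂ)‖ := by
        calc ‖((3 / (4 * R) : ℝ) : ℂ)‖ = ‖z - (z - ((3 / (4 * R) : ℝ) : ℂ))‖ := by congr 1; ring
          _ ≤ _ := norm_sub_le _ _
      rw [hc] at h4
      linarith
    have e1 : 3 / (4 * R) + 1 / (8 * R) = 7 / 8 * (1 / R) := by field_simp; ring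
    have e2 : 3 / (4 * R) - 1 / (8 * R) = 5 / 8 * (1 / R) := by field_simp; ring
    have e3 : 1 / (2 * R) = 1 / 2 * (1 / R) := by field_simp
    have h5 : 0 < 1 / R := by positivity
    refine ⟨?_, ?_⟩
    · rw [mem_closedBall, dist_zero_right]
      linarith
    · rw [mem_ball, dist_zero_right, not_lt, e3]
      linarith
  intro h2
  have h3 : volume (ball ((3 / (4 * R) : ℝ) : ℂ) (1 / (8 * R))) = 0 := measure_mono_null h1 h2
  exact (measure_ball_pos volume _ (by positivity)).ne' h3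

theorem ABX_An_top (R : ℝ) : volume (ABX_An R) ≠ ⊤ :=
  ne_top_of_le_ne_top (measure_closedBall_lt_top (x := (0 : ℂ)) (r := 1 / R)).ne
    (measure_mono sdiff_subset)

theorem ABX_cov (ι : Fin 2) {R : ℝ} (hR : 0 < R) (h : E3 → ENNReal) (hh : Measurable h)
    (hhom : ∀ (Y : E3) (c : ℂ), c ≠ 0 → h (c • Y) = h Y) (S : Set E3) (hS : MeasurableSet S)
    (Bx : Set (ℂ × ℂ)) (hBx : MeasurableSet Bx)
    (hin : ∀ a ∈ ABX_An R, ∀ w ∈ Bx, a • cht ι w.1 w.2 ∈ S) :
    volume (ABX_An R) * (ENNReal.ofReal ((1 / (2 * R)) ^ 4) * ∫⁻ w in Bx, h (cht ι w.1 w.2)) ≤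
      ∫⁻ Y in S, h Y := by
  set F : E3 → ENNReal := S.indicator h with hF
  have hFm : Measurable F := hh.indicator hS
  have e1 : ∫⁻ Y in S, h Y = ∫⁻ Y, F Y := (lintegral_indicator hS h).symm
  have hmp := (ABX_e_mp ι).symm
  have e2 : ∫⁻ Y, F Y = ∫⁻ p : ℂ × (ℂ × ℂ), F ((ABX_e ι).symm p) := (hmp.lintegral_comp hFm).symm
  have hFe : Measurable fun p : ℂ × (ℂ × ℂ) => F ((ABX_e ι).symm p) :=
    hFm.comp (ABX_e ι).symm.measurable
  have e3 : ∫⁻ p : ℂ × (ℂ × ℂ), F ((ABX_e ι).symm p) =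
      ∫⁻ a : ℂ, ∫⁻ w : ℂ × ℂ, F ((ABX_e ι).symm (a, w)) :=
    lintegral_prod _ hFe.aemeasurable
  rw [e1, e2, e3]
  have hpos : (0 : ℝ) < 1 / (2 * R) := by positivity
  have key : ∀ a ∈ ABX_An R, ENNReal.ofReal ((1 / (2 * R)) ^ 4) *
      ∫⁻ w in Bx, h (cht ι w.1 w.2) ≤ ∫⁻ w : ℂ × ℂ, F ((ABX_e ι).symm (a, w)) := by
    intro a ha
    have han : 1 / (2 * R) ≤ ‖a‖ := by
      have := ha.2
      rw [mem_ball, dist_zero_right, not_lt] at this
      exact this
    have ha0 : a ≠ 0 := norm_pos_iff.1 (lt_of_lt_of_le hpos han)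
    have hGm : Measurable fun w : ℂ × ℂ => F ((ABX_e ι).symm (a, w)) :=
      hFe.comp (measurable_const.prodMk measurable_id)
    rw [ABX_scale a ha0 _ hGm]
    refine mul_le_mul' (ENNReal.ofReal_le_ofReal ?_) ?_
    · rw [map_pow, Complex.normSq_eq_norm_sq, ← pow_mul]
      exact pow_le_pow_left₀ hpos.le han 4
    · rw [← lintegral_indicator hBx]
      refine lintegral_mono fun w => ?_
      by_cases hw : w ∈ Bx
      · rw [indicator_of_mem hw, ABX_e_smul, hF, indicator_of_mem (hin a ha w hw), hhom _ _ ha0]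
      · rw [indicator_of_notMem hw]
        exact zero_le
  calc volume (ABX_An R) * (ENNReal.ofReal ((1 / (2 * R)) ^ 4) * ∫⁻ w in Bx, h (cht ι w.1 w.2))
      = ∫⁻ _ in ABX_An R, ENNReal.ofReal ((1 / (2 * R)) ^ 4) *
          ∫⁻ w in Bx, h (cht ι w.1 w.2) := by
        rw [setLIntegral_const, mul_comm]
    _ ≤ ∫⁻ a in ABX_An R, ∫⁻ w : ℂ × ℂ, F ((ABX_e ι).symm (a, w)) :=
        setLIntegral_mono' (ABX_An_meas R) key
    _ ≤ ∫⁻ a : ℂ, ∫⁻ w : ℂ × ℂ, F ((ABX_e ι).symm (a, w)) := setLIntegral_le_lintegral _ _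

/-! ### the sum of lower integrals -/

theorem ABX_sum_le {α : Type} [MeasurableSpace α] (μ : Measure α) (g : ℕ → α → ENNReal) (n : ℕ) :
    ∑ j ∈ Finset.range n, ∫⁻ x, g j x ∂μ ≤ ∫⁻ x, ∑ j ∈ Finset.range n, g j x ∂μ := by
  induction n with
  | zero => simp
  | succ n ih =>
    rw [Finset.sum_range_succ]
    calc ∑ j ∈ Finset.range n, ∫⁻ x, g j x ∂μ + ∫⁻ x, g n x ∂μ
        ≤ ∫⁻ x, ∑ j ∈ Finset.range n, g j x ∂μ + ∫⁻ x, g n x ∂μ := by gcongr
      _ ≤ ∫⁻ x, (∑ j ∈ Finset.range n, g j x) + g n x ∂μ := le_lintegral_add _ _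
      _ = ∫⁻ x, ∑ j ∈ Finset.range (n + 1), g j x ∂μ := by
          refine lintegral_congr fun x => ?_
          rw [Finset.sum_range_succ]

theorem ABX (hENC : ENC_stmt) (hAPS : APS_stmt) : ABX_stmt := by
  intro d f U 𝒱 C0 hd hG h𝒱 h𝒱U hC0 ι x0 y0 ρ hρ hbox
  obtain ⟨C, hC, hA1, -, hA2⟩ := hAPS d f U hd hG
  have hopen := cone_open hG.1.1
  have hcdA : ∀ (N : ℕ) (Ψ : E3 → ℝ) (B : ℝ), Adm f U N Ψ B → ∀ Z ∈ cone U, ContDiffAt ℝ 2 Ψ Z :=
    fun N Ψ B hA Z hZ => (hA.1.contDiffAt (hopen.mem_nhds hZ)).of_le ENat.LEInfty.out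
  have hcone : cone 𝒱 ⊆ cone U := fun Z hZ => by
    obtain ⟨h0, h1⟩ := hZ
    exact ⟨h0, h𝒱U h1⟩
  set R : ℝ := 1 + ‖x0‖ + ‖y0‖ + ρ with hR
  have hR1 : 1 ≤ R := by
    have := norm_nonneg x0
    have := norm_nonneg y0
    rw [hR]
    linarith
  have hR0 : 0 < R := by linarith
  have hchtR : ∀ w ∈ ball (x0, y0) ρ, ‖cht ι w.1 w.2‖ ≤ R := by
    intro w hw
    rw [mem_ball, Prod.dist_eq, max_lt_iff, dist_eq_norm, dist_eq_norm] at hw
    have h1 : ‖w.1‖ ≤ R := by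
      calc ‖w.1‖ = ‖x0 + (w.1 - x0)‖ := by congr 1; ring
        _ ≤ ‖x0‖ + ‖w.1 - x0‖ := norm_add_le _ _
        _ ≤ R := by
            have := norm_nonneg y0
            have := hw.1
            rw [hR]
            linarith
    have h2 : ‖w.2‖ ≤ R := by
      calc ‖w.2‖ = ‖y0 + (w.2 - y0)‖ := by congr 1; ring
        _ ≤ ‖y0‖ + ‖w.2 - y0‖ := norm_add_le _ _
        _ ≤ R := by
            have := norm_nonneg x0
            have := hw.2
            rw [hR]
            linarith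
    rw [pi_norm_le_iff_of_nonneg hR0.le]
    intro i
    unfold cht
    split_ifs
    · fin_cases i
      · show ‖(1 : ℂ)‖ ≤ R
        rw [norm_one]
        exact hR1
      · exact h1
      · exact h2
    · fin_cases i
      · exact h1
      · show ‖(1 : ℂ)‖ ≤ R
        rw [norm_one]
        exact hR1
      · exact h2
  have hin : ∀ a ∈ ABX_An R, ∀ w ∈ ball (x0, y0) ρ,
      a • cht ι w.1 w.2 ∈ closedBall (0 : E3) 1 ∩ cone 𝒱 := by
    intro a ha w hw
    have h1 : ‖a‖ ≤ 1 / R := by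
      have := ha.1
      rwa [mem_closedBall, dist_zero_right] at this
    have h2 : 1 / (2 * R) ≤ ‖a‖ := by
      have := ha.2
      rw [mem_ball, dist_zero_right, not_lt] at this
      exact this
    have ha0 : a ≠ 0 := norm_pos_iff.1 (lt_of_lt_of_le (by positivity) h2)
    refine ⟨?_, cone_smul (hbox w hw) ha0⟩
    rw [mem_closedBall, dist_zero_right, norm_smul]
    calc ‖a‖ * ‖cht ι w.1 w.2‖ ≤ 1 / R * R :=
          mul_le_mul h1 (hchtR w hw) (norm_nonneg _) (by positivity)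
      _ = 1 := by field_simp
  set K : ENNReal := volume (ABX_An R) * ENNReal.ofReal ((1 / (2 * R)) ^ 4) with hK
  have hK0 : K ≠ 0 := mul_ne_zero (ABX_An_pos hR0) (by
    rw [Ne, ENNReal.ofReal_eq_zero, not_le]
    positivity)
  have hKt : K ≠ ⊤ := ENNReal.mul_ne_top (ABX_An_top R) ENNReal.ofReal_ne_top
  have hq : ENNReal.ofReal C0 / K ≠ ⊤ := ENNReal.div_ne_top ENNReal.ofReal_ne_top hK0
  refine ⟨(ENNReal.ofReal C0 / K).toReal + 1, by positivity, ?_⟩
  intro n N hn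
  have hAn := (hA2 n N hn).1
  -- the estimate for the sum
  have hmain : ∫⁻ p in ball (x0, y0) ρ, ENNReal.ofReal (ed f N (psn f n N) (cht ι p.1 p.2)) ≤
      ENNReal.ofReal C0 / K := by
    have h1 := ABX_cov ι hR0 (MAN_h f U N (psn f n N)) (MAN_h_meas hG N hAn (by omega))
      (MAN_h_smul hG N hAn) (closedBall (0 : E3) 1 ∩ cone 𝒱)
      (measurableSet_closedBall.inter (cone_open h𝒱).measurableSet) (ball (x0, y0) ρ)
      measurableSet_ball hin
    have h2 : ∫⁻ Y in closedBall (0 : E3) 1 ∩ cone 𝒱, MAN_h f U N (psn f n N) Y ≤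
        ENNReal.ofReal C0 := by
      refine le_trans (lintegral_mono fun Y => ?_) (hC0 n N hn)
      exact indicator_le_self _ _ Y
    have h3 : ∫⁻ p in ball (x0, y0) ρ, ENNReal.ofReal (ed f N (psn f n N) (cht ι p.1 p.2)) ≤
        ∫⁻ p in ball (x0, y0) ρ, MAN_h f U N (psn f n N) (cht ι p.1 p.2) := by
      refine setLIntegral_mono' measurableSet_ball fun p hp => ?_
      have hpc : cht ι p.1 p.2 ∈ cone U := hcone (hbox p hp)
      have h4 : 0 ≤ ed f N (psn f n N) (cht ι p.1 p.2) := (hENC d f U N _ _ hd hG hAn _ hpc).2.1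
      have h5 : 1 ≤ nq (cht ι p.1 p.2) := by
        unfold nq
        rw [Fin.sum_univ_three]
        have q1 := Complex.normSq_nonneg p.1
        have q2 := Complex.normSq_nonneg p.2
        unfold cht
        split_ifs
        · show 1 ≤ Complex.normSq 1 + Complex.normSq p.1 + Complex.normSq p.2
          rw [map_one]
          linarith
        · show 1 ≤ Complex.normSq p.1 + Complex.normSq 1 + Complex.normSq p.2
          rw [map_one]
          linarith
      unfold MAN_h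
      rw [indicator_of_mem hpc]
      refine ENNReal.ofReal_le_ofReal ?_
      unfold eh
      exact le_mul_of_one_le_left h4 (one_le_pow₀ h5)
    rw [ENNReal.le_div_iff_mul_le (Or.inl hK0) (Or.inl hKt), mul_comm]
    calc K * ∫⁻ p in ball (x0, y0) ρ, ENNReal.ofReal (ed f N (psn f n N) (cht ι p.1 p.2))
        ≤ K * ∫⁻ p in ball (x0, y0) ρ, MAN_h f U N (psn f n N) (cht ι p.1 p.2) := by gcongr
      _ ≤ _ := by
          rw [hK, mul_assoc]
          exact h1
      _ ≤ _ := h2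
  calc ∑ j ∈ Finset.range n, ∫⁻ p in ball (x0, y0) ρ,
        ENNReal.ofReal (ed f N (psj f j N) (cht ι p.1 p.2))
      ≤ ∫⁻ p in ball (x0, y0) ρ, ∑ j ∈ Finset.range n,
        ENNReal.ofReal (ed f N (psj f j N) (cht ι p.1 p.2)) := ABX_sum_le _ _ n
    _ = ∫⁻ p in ball (x0, y0) ρ, ENNReal.ofReal (ed f N (psn f n N) (cht ι p.1 p.2)) := by
        refine setLIntegral_congr_fun measurableSet_ball fun p hp => ?_
        have hpc : cht ι p.1 p.2 ∈ cone U := hcone (hbox p hp)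
        show ∑ j ∈ Finset.range n, ENNReal.ofReal (ed f N (psj f j N) (cht ι p.1 p.2)) =
          ENNReal.ofReal (ed f N (psn f n N) (cht ι p.1 p.2))
        rw [ABX_ed_sum f N (fun j hj => hcdA N _ _ (hA1 j N hj) _ hpc)
          (fun m hm => hcdA N _ _ (hA2 m N hm).1 _ hpc) n hn,
          ENNReal.ofReal_sum_of_nonneg fun j hj => ?_]
        have hj' : j ≤ N := by
          have := Finset.mem_range.1 hj
          omega
        exact (hENC d f U N _ _ hd hG (hA1 j N hj') _ hpc).2.1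
    _ ≤ ENNReal.ofReal C0 / K := hmain
    _ = ENNReal.ofReal (ENNReal.ofReal C0 / K).toReal := (ENNReal.ofReal_toReal hq).symm
    _ ≤ _ := ENNReal.ofReal_le_ofReal (by linarith)

end Pool.Agent.P2A
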