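import Pool.Agent.helper15.P2.SpecD
import Pool.Agent.helper26.P2.CUT
import Pool.Agent.helper68.P2.BC2

set_option autoImplicit false

/-! # P2 (MP_063734_an), row BTW -/

open scoped ContDiff Topology ComplexConjugate ENNReal
open MeasureTheory Filter Set Metric

namespace Pool.Agent.P2B

open Pool.Agent.P2 Pool.Agent.P2I

/-- the integral of `|log |φ||` -/
theorem BTW_log (hLGA : LGA_stmt) {φ : ℂ → ℂ} (hφ : DifferentiableOn ℂ φ (ball 0 1))
    (hφ1 : ∀ z ∈ ball (0 : ℂ) 1, ‖φ z‖ ≤ 1) {z0 : ℂ} (hz0 : z0 ∈ ball (0 : ℂ) (1 / 2)) {T : ℝ}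
    (hT : 0 < T) (h0 : φ z0 ≠ 0) (hlog : -Real.log ‖φ z0‖ ≤ T) :
    (∀ᵐ z ∂(volume.restrict (ball (0 : ℂ) (4 / 5))), φ z ≠ 0) ∧
    IntegrableOn (fun z => |Real.log ‖φ z‖|) (ball 0 (4 / 5)) ∧
      ∫ z in ball (0 : ℂ) (4 / 5), |Real.log ‖φ z‖| ≤ 10 ^ 5 * T := by
  have hz0n : ‖z0‖ < 1 / 2 := by rwa [mem_ball_zero_iff] at hz0
  have hz01 : z0 ∈ ball (0 : ℂ) 1 := by
    rw [mem_ball_zero_iff]
    linarith
  have hφe : ∀ z ∈ ball (0 : ℂ) 1, ‖φ z‖ ≤ Real.exp 0 := fun z hz => by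
    rw [Real.exp_zero]
    exact hφ1 z hz
  have hae : ∀ᵐ z ∂(volume.restrict (ball (0 : ℂ) 1)), φ z ≠ 0 := by
    have h1 := (hφ.analyticOnNhd isOpen_ball).preimage_zero_mem_codiscreteWithin h0 hz01
      ((convex_ball (0 : ℂ) 1).isConnected ⟨0, mem_ball_self one_pos⟩)
    exact ae_restrict_le_codiscreteWithin measurableSet_ball h1
  have hsub1 : ball z0 (49 / 100) ⊆ ball (0 : ℂ) 1 := by
    apply ball_subset_ball'
    rw [dist_zero_right]
    linarith
  have hI1 := hLGA φ z0 (48 / 100) (49 / 100) 0 (by norm_num) (by norm_num) le_rfl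
    (hφ.mono hsub1) (fun z hz => hφe z (hsub1 hz)) h0
  obtain ⟨y, hyn, hysub⟩ : ∃ y : ℂ, ‖y‖ ≤ 3 / 100 ∧ ball y (1 / 100) ⊆ ball z0 (48 / 100) := by
    by_cases h : ‖z0‖ < 3 / 100
    · refine ⟨0, by rw [norm_zero]; norm_num, ball_subset_ball' ?_⟩
      rw [dist_comm, dist_zero_right]
      linarith
    · push Not at h
      have hpos : 0 < ‖z0‖ := by linarith
      refine ⟨((3 / 100 / ‖z0‖ : ℝ) : ℂ) * z0, ?_, ball_subset_ball' ?_⟩
      · rw [norm_mul, Complex.norm_real, Real.norm_of_nonneg (by positivity),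
          div_mul_cancel₀ _ hpos.ne']
      · rw [dist_comm, dist_eq_norm]
        have h1 : z0 - ((3 / 100 / ‖z0‖ : ℝ) : ℂ) * z0 = ((1 - 3 / 100 / ‖z0‖ : ℝ) : ℂ) * z0 := by
          push_cast
          ring
        have h2 : 0 ≤ 1 - 3 / 100 / ‖z0‖ := by
          rw [sub_nonneg, div_le_one hpos]
          exact h
        rw [h1, norm_mul, Complex.norm_real, Real.norm_of_nonneg h2, sub_mul,
          div_mul_cancel₀ _ hpos.ne']
        linarith
  have hysub1 : ball y (1 / 100) ⊆ ball (0 : ℂ) 1 := by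
    apply ball_subset_ball'
    rw [dist_zero_right]
    linarith
  have hz1 : ∃ z1 ∈ ball y (1 / 100), φ z1 ≠ 0 ∧ |Real.log ‖φ z1‖| ≤ 10 ^ 4 * T := by
    by_contra hcon
    push Not at hcon
    have h2 : ∫⁻ z in ball y (1 / 100), ENNReal.ofReal (10 ^ 4 * T) ≤
        ∫⁻ z in ball y (1 / 100), ENNReal.ofReal |Real.log ‖φ z‖| := by
      refine lintegral_mono_ae ?_
      have h3 := ae_restrict_of_ae_restrict_of_subset hysub1 hae
      filter_upwards [h3, ae_restrict_mem measurableSet_ball] with z hz hzb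
      exact ENNReal.ofReal_le_ofReal (hcon z hzb hz).le
    have h4 : ∫⁻ z in ball y (1 / 100), ENNReal.ofReal |Real.log ‖φ z‖| ≤
        ENNReal.ofReal (Real.pi * (48 / 100) ^ 2 * T) := by
      refine ((lintegral_mono_set hysub).trans hI1).trans (ENNReal.ofReal_le_ofReal ?_)
      exact mul_le_mul_of_nonneg_left (by linarith) (by positivity)
    have h5 := h2.trans h4
    rw [setLIntegral_const, Complex.volume_ball] at h5
    have h6 : ENNReal.ofReal (10 ^ 4 * T) * (ENNReal.ofReal (1 / 100) ^ 2 * NNReal.pi) =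
        ENNReal.ofReal (10 ^ 4 * T * ((1 / 100) ^ 2 * Real.pi)) := by
      have hE0 : 0 ≤ 10 ^ 4 * T := by positivity
      rw [ENNReal.ofReal_mul hE0, ENNReal.ofReal_mul (p := (1 / 100) ^ 2) (by positivity),
        ENNReal.ofReal_pow (by norm_num)]
      congr 2
      exact (ENNReal.ofReal_coe_nnreal (p := NNReal.pi)).symm
    rw [h6, ENNReal.ofReal_le_ofReal_iff (by positivity)] at h5
    have h8 : 0 < Real.pi * T := mul_pos Real.pi_pos hT
    nlinarith
  obtain ⟨z1, hz1b, hφz1, hlogz1⟩ := hz1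
  have hz1n : ‖z1‖ < 4 / 100 := by
    rw [mem_ball, dist_eq_norm] at hz1b
    have h1 : ‖z1‖ ≤ ‖y‖ + ‖z1 - y‖ := by
      calc ‖z1‖ = ‖y + (z1 - y)‖ := by congr 1; ring
        _ ≤ _ := norm_add_le _ _
    linarith
  have hsub2 : ball z1 (9 / 10) ⊆ ball (0 : ℂ) 1 := by
    apply ball_subset_ball'
    rw [dist_zero_right]
    linarith
  have hI2 := hLGA φ z1 (86 / 100) (9 / 10) 0 (by norm_num) (by norm_num) le_rfl
    (hφ.mono hsub2) (fun z hz => hφe z (hsub2 hz)) hφz1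
  have hsub3 : ball (0 : ℂ) (4 / 5) ⊆ ball z1 (86 / 100) := by
    apply ball_subset_ball'
    rw [dist_comm, dist_zero_right]
    linarith
  have hI3 : ∫⁻ z in ball (0 : ℂ) (4 / 5), ENNReal.ofReal |Real.log ‖φ z‖| ≤
      ENNReal.ofReal (10 ^ 5 * T) := by
    refine ((lintegral_mono_set hsub3).trans hI2).trans (ENNReal.ofReal_le_ofReal ?_)
    have h1 := (abs_le.1 hlogz1).1
    have hpi := Real.pi_lt_d2
    have hpi0 := Real.pi_pos
    have h2 : 2 * 0 - Real.log ‖φ z1‖ ≤ 10 ^ 4 * T := by linarith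
    calc Real.pi * (86 / 100) ^ 2 * (2 * 0 - Real.log ‖φ z1‖) ≤
        Real.pi * (86 / 100) ^ 2 * (10 ^ 4 * T) := mul_le_mul_of_nonneg_left h2 (by positivity)
      _ ≤ 3.15 * (86 / 100) ^ 2 * (10 ^ 4 * T) := by
          gcongr
      _ ≤ _ := by nlinarith
  have hmeas : AEStronglyMeasurable (fun z => |Real.log ‖φ z‖|)
      (volume.restrict (ball (0 : ℂ) (4 / 5))) := by
    have h1 : AEStronglyMeasurable φ (volume.restrict (ball (0 : ℂ) (4 / 5))) :=
      (hφ.continuousOn.mono (ball_subset_ball (by norm_num))).aestronglyMeasurable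
        measurableSet_ball
    exact continuous_abs.comp_aestronglyMeasurable
      (Real.measurable_log.comp_aemeasurable h1.norm.aemeasurable).aestronglyMeasurable
  have hint : IntegrableOn (fun z => |Real.log ‖φ z‖|) (ball (0 : ℂ) (4 / 5)) := by
    refine ⟨hmeas, ?_⟩
    rw [hasFiniteIntegral_iff_norm]
    simp only [Real.norm_eq_abs, abs_abs]
    exact lt_of_le_of_lt hI3 ENNReal.ofReal_lt_top
  refine ⟨ae_restrict_of_ae_restrict_of_subset (ball_subset_ball (by norm_num)) hae, hint, ?_⟩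
  have habs : ∫ z in ball (0 : ℂ) (4 / 5), |Real.log ‖φ z‖| =
      (∫⁻ z in ball (0 : ℂ) (4 / 5), ENNReal.ofReal |Real.log ‖φ z‖|).toReal :=
    integral_eq_lintegral_of_nonneg_ae (Eventually.of_forall fun z => abs_nonneg _) hmeas
  rw [habs]
  exact ENNReal.toReal_le_of_le_ofReal (by positivity) hI3

/-- the subharmonic function -/
noncomputable def BTW_S (φ : ℂ → ℂ) (K : ℝ) (z : ℂ) : ℝ :=
  1 / (2 * K) * ((1 / 2) * Real.log (nq ![φ z] + Real.exp (2 * -K))) +
    -(1 / (4 * K) * Real.log (1 + Real.exp (2 * -K)))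

theorem BTW_nq (a : ℂ) : nq ![a] = Complex.normSq a := by
  unfold nq
  simp

theorem BTW_pos (a : ℂ) (K : ℝ) : 0 < nq ![a] + Real.exp (2 * -K) := by
  rw [BTW_nq]
  exact add_pos_of_nonneg_of_pos (Complex.normSq_nonneg _) (Real.exp_pos _)

theorem BTW_smooth {φ : ℂ → ℂ} (hφ : DifferentiableOn ℂ φ (ball 0 1)) (K : ℝ) :
    ContDiffOn ℝ ∞ (fun z => (1 / 2) * Real.log (nq ![φ z] + Real.exp (2 * -K))) (ball 0 1) := by
  have h1 : ContDiffOn ℝ ∞ φ (ball 0 1) := (hφ.contDiffOn isOpen_ball).restrict_scalars ℝ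
  have hre : ContDiffOn ℝ ∞ (fun z => (φ z).re) (ball 0 1) :=
    Complex.reCLM.contDiff.comp_contDiffOn h1
  have him : ContDiffOn ℝ ∞ (fun z => (φ z).im) (ball 0 1) :=
    Complex.imCLM.contDiff.comp_contDiffOn h1
  have h2 : ContDiffOn ℝ ∞ (fun z => nq ![φ z] + Real.exp (2 * -K)) (ball 0 1) := by
    have e : (fun z => nq ![φ z] + Real.exp (2 * -K)) =
        fun z => (φ z).re * (φ z).re + (φ z).im * (φ z).im + Real.exp (2 * -K) := by
      funext z
      rw [BTW_nq, Complex.normSq_apply]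
    rw [e]
    exact ((hre.mul hre).add (him.mul him)).add contDiffOn_const
  exact contDiffOn_const.mul (h2.log fun z _ => (BTW_pos _ _).ne')

theorem BTW_lap_affine {g : ℂ → ℝ} {z : ℂ} (hg : ContDiffAt ℝ 2 g z) (a d : ℝ) :
    lap (fun x => a * g x + d) z = a * lap g z := by
  have h1 : ContDiffAt ℝ 2 (fun x => a * g x) z := contDiffAt_const.mul hg
  have h2 : ContDiffAt ℝ 2 (fun _ : ℂ => d) z := contDiffAt_const
  rw [IG_lap_add h1 h2]
  have h3 : lap (fun _ : ℂ => d) z = 0 := by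
    unfold lap
    rw [iteratedFDeriv_const_of_ne (by norm_num)]
    simp
  have h4 : lap (fun x => a * g x) z = a * lap g z := by
    unfold lap
    have h5 : iteratedFDeriv ℝ 2 (fun x => a * g x) z = a • iteratedFDeriv ℝ 2 g z :=
      iteratedFDeriv_const_smul_apply (a := a) hg
    rw [h5]
    simp only [smul_apply, smul_eq_mul]
    ring
  rw [h3, h4, add_zero]

theorem BTW_sub (hLSE : LSE_stmt) {φ : ℂ → ℂ} (hφ : DifferentiableOn ℂ φ (ball 0 1)) (K : ℝ)
    (hK : 0 < K) : ∀ z ∈ ball (0 : ℂ) 1, 0 ≤ lap (BTW_S φ K) z := by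
  intro z hz
  have hc : ContDiffAt ℝ 2 (fun z => (1 / 2) * Real.log (nq ![φ z] + Real.exp (2 * -K))) z :=
    ((BTW_smooth hφ K).contDiffAt (isOpen_ball.mem_nhds hz)).of_le (WithTop.coe_le_coe.2 le_top)
  have h1 : lap (BTW_S φ K) z = 1 / (2 * K) *
      lap (fun z => (1 / 2) * Real.log (nq ![φ z] + Real.exp (2 * -K))) z :=
    BTW_lap_affine hc _ _
  rw [h1]
  refine mul_nonneg (by positivity) ?_
  have hO : IsOpen {t : ℂ | z + t ∈ ball (0 : ℂ) 1} :=
    isOpen_ball.preimage (continuous_const.add continuous_id)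
  have h0 : (0 : ℂ) ∈ {t : ℂ | z + t ∈ ball (0 : ℂ) 1} := by
    show z + 0 ∈ ball (0 : ℂ) 1
    rw [add_zero]
    exact hz
  have hG : DifferentiableOn ℂ (fun t => ![φ (z + t)]) {t : ℂ | z + t ∈ ball (0 : ℂ) 1} := by
    rw [differentiableOn_pi]
    intro i
    have h2 : DifferentiableOn ℂ (fun t => φ (z + t)) {t : ℂ | z + t ∈ ball (0 : ℂ) 1} :=
      hφ.comp ((differentiable_const z).add differentiable_id).differentiableOn fun t ht => ht
    refine h2.congr fun t _ => ?_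
    rw [Subsingleton.elim i 0]
    rfl
  have h2 := hLSE 1 (fun t => ![φ (z + t)]) (fun _ => -K) _ hO h0 hG contDiffOn_const (by
    unfold lap
    rw [iteratedFDeriv_const_of_ne (by norm_num)]
    simp)
  have h3 : lap (fun t => (1 / 2) * Real.log (nq ![φ (z + t)] + Real.exp (2 * -K))) 0 =
      lap (fun z => (1 / 2) * Real.log (nq ![φ z] + Real.exp (2 * -K))) z := by
    have h4 := iteratedFDeriv_comp_add_left (𝕜 := ℝ)
      (f := fun s : ℂ => (1 / 2) * Real.log (nq ![φ s] + Real.exp (2 * -K))) 2 z (0 : ℂ)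
    rw [add_zero] at h4
    unfold lap
    rw [h4]
  rw [← h3]
  exact h2

theorem BTW_bounds {φ : ℂ → ℂ} {K : ℝ} (hK : 1 ≤ K) {z : ℂ} (h1 : ‖φ z‖ ≤ 1) :
    BTW_S φ K z ≤ 0 ∧ -1 ≤ BTW_S φ K z ∧
      (φ z ≠ 0 → |BTW_S φ K z| ≤ 1 / (4 * K) * (1 + 2 * |Real.log ‖φ z‖|)) ∧
      (‖φ z‖ ≤ Real.exp (-K) → BTW_S φ K z ≤ -(1 / 4)) := by
  have hK0 : 0 < K := by linarith
  have hS : BTW_S φ K z = 1 / (4 * K) * (Real.log (Complex.normSq (φ z) + Real.exp (2 * -K)) -
      Real.log (1 + Real.exp (2 * -K))) := by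
    unfold BTW_S
    rw [BTW_nq]
    field_simp
    ring
  have hn : Complex.normSq (φ z) ≤ 1 := by
    rw [Complex.normSq_eq_norm_sq]
    exact pow_le_one₀ (norm_nonneg _) h1
  have hn0 := Complex.normSq_nonneg (φ z)
  have he := Real.exp_pos (2 * -K)
  have he1 : Real.exp (2 * -K) ≤ 1 := Real.exp_le_one_iff.2 (by linarith)
  have hl2 : Real.log (1 + Real.exp (2 * -K)) ≤ Real.log 2 :=
    Real.log_le_log (by linarith) (by linarith)
  have hl20 : 0 ≤ Real.log (1 + Real.exp (2 * -K)) := Real.log_nonneg (by linarith)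
  have hlog2 : Real.log 2 ≤ 1 := by
    have := Real.log_two_lt_d9
    linarith
  have hq : 0 < 1 / (4 * K) := by positivity
  have hlow : 2 * -K ≤ Real.log (Complex.normSq (φ z) + Real.exp (2 * -K)) := by
    rw [Real.le_log_iff_exp_le (by linarith)]
    linarith
  have hup : Real.log (Complex.normSq (φ z) + Real.exp (2 * -K)) ≤
      Real.log (1 + Real.exp (2 * -K)) := Real.log_le_log (by linarith) (by linarith)
  have hqK : 1 / (4 * K) * K = 1 / 4 := by field_simp
  have hq1 : 1 / (4 * K) ≤ 1 / 4 := by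
    rw [div_le_div_iff₀ (by positivity) (by norm_num)]
    linarith
  refine ⟨?_, ?_, ?_, ?_⟩
  · rw [hS]
    exact mul_nonpos_of_nonneg_of_nonpos hq.le (by linarith)
  · rw [hS]
    have h2 : 1 / (4 * K) * (2 * -K - 1) ≤ 1 / (4 * K) *
        (Real.log (Complex.normSq (φ z) + Real.exp (2 * -K)) - Real.log (1 + Real.exp (2 * -K))) :=
      mul_le_mul_of_nonneg_left (by linarith) hq.le
    refine le_trans ?_ h2
    have h3 : 1 / (4 * K) * (2 * -K - 1) = -2 * (1 / (4 * K) * K) - 1 / (4 * K) := by ring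
    rw [h3, hqK]
    linarith
  · intro h0
    have hp : 0 < ‖φ z‖ := norm_pos_iff.2 h0
    have h2 : 2 * Real.log ‖φ z‖ ≤ Real.log (Complex.normSq (φ z) + Real.exp (2 * -K)) := by
      have h3 : 2 * Real.log ‖φ z‖ = Real.log (‖φ z‖ ^ 2) := by
        rw [Real.log_pow]
        norm_num
      rw [h3, Complex.normSq_eq_norm_sq]
      exact Real.log_le_log (by positivity) (by linarith)
    have h3 : Real.log ‖φ z‖ ≤ 0 := Real.log_nonpos hp.le h1
    rw [hS, abs_mul, abs_of_pos hq, abs_of_nonpos (by linarith), abs_of_nonpos h3]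
    exact mul_le_mul_of_nonneg_left (by linarith) hq.le
  · intro h0
    have h2 : Complex.normSq (φ z) ≤ Real.exp (2 * -K) := by
      rw [Complex.normSq_eq_norm_sq]
      have h3 : Real.exp (2 * -K) = Real.exp (-K) ^ 2 := by
        rw [← Real.exp_nat_mul]
        norm_num
      rw [h3]
      exact pow_le_pow_left₀ (norm_nonneg _) h0 2
    have h3 : Real.log (Complex.normSq (φ z) + Real.exp (2 * -K)) ≤ Real.log 2 + 2 * -K := by
      have h4 : Real.log 2 + 2 * -K = Real.log (2 * Real.exp (2 * -K)) := by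
        rw [Real.log_mul (by norm_num) he.ne', Real.log_exp]
      rw [h4]
      exact Real.log_le_log (by linarith) (by linarith)
    rw [hS]
    have h4 : 1 / (4 * K) * (Real.log (Complex.normSq (φ z) + Real.exp (2 * -K)) -
        Real.log (1 + Real.exp (2 * -K))) ≤ 1 / (4 * K) * (1 + 2 * -K) :=
      mul_le_mul_of_nonneg_left (by linarith) hq.le
    refine le_trans h4 ?_
    have h5 : 1 / (4 * K) * (1 + 2 * -K) = 1 / (4 * K) - 2 * (1 / (4 * K) * K) := by ring
    rw [h5, hqK]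
    linarith

theorem BTW (hLSE : LSE_stmt) (hLGA : LGA_stmt) (hBC2 : BC2_stmt) : BTW_stmt := by
  intro B δ hB hδ
  let b1 : ContDiffBump (0 : ℂ) := ⟨3 / 4, 39 / 50, by norm_num, by norm_num⟩
  let b2 : ContDiffBump (0 : ℂ) := ⟨4 / 5, 9 / 10, by norm_num, by norm_num⟩
  have hb1s : ContDiff ℝ ∞ (b1 : ℂ → ℝ) := b1.contDiff
  have hb2s : ContDiff ℝ ∞ (b2 : ℂ → ℝ) := b2.contDiff
  have hb1c : HasCompactSupport (b1 : ℂ → ℝ) := b1.hasCompactSupport
  have hb1t : tsupport (b1 : ℂ → ℝ) ⊆ ball 0 (4 / 5) := by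
    rw [b1.tsupport_eq]
    exact closedBall_subset_ball (by norm_num)
  have hb2t : tsupport (b2 : ℂ → ℝ) ⊆ ball 0 1 := by
    rw [b2.tsupport_eq]
    exact closedBall_subset_ball (by norm_num)
  have hb1one : ∀ z ∈ closedBall (0 : ℂ) (3 / 4), b1 z = 1 := fun z hz =>
    b1.one_of_mem_closedBall hz
  have hb2one : ∀ z ∈ closedBall (0 : ℂ) (4 / 5), b2 z = 1 := fun z hz =>
    b2.one_of_mem_closedBall hz
  obtain ⟨C, hC, hCC⟩ := hBC2 b1 hb1s hb1c hb1t (fun z => b1.nonneg)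
  set q : ℝ := δ / (8 * C * B) with hq
  have hq0 : 0 < q := by positivity
  set η : ℝ := q ^ 2 / 2 with hη
  have hη0 : 0 < η := by positivity
  refine ⟨2 * η / 10 ^ 5, max 1 (1 / η), by positivity, ?_⟩
  intro φ v K hφ hφ1 hv hvB hK hmass z1 hz1
  have hK1 : 1 ≤ K := le_trans (le_max_left _ _) hK
  have hK0 : 0 < K := by linarith
  have hKη : 1 / K ≤ η := by
    have h1 : 1 / η ≤ K := le_trans (le_max_right _ _) hK
    rw [div_le_iff₀ hη0] at h1
    rw [div_le_iff₀ hK0]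
    linarith
  by_contra hcon
  push Not at hcon
  set c : ℝ := 2 * η / 10 ^ 5 with hc
  have hc0 : 0 < c := by positivity
  have hT : 0 < c * K := mul_pos hc0 hK0
  have hz1ne : φ z1 ≠ 0 := norm_pos_iff.1 (lt_trans (Real.exp_pos _) hcon)
  have hlog : -Real.log ‖φ z1‖ ≤ c * K := by
    have h1 := (Real.le_log_iff_exp_le (norm_pos_iff.2 hz1ne)).2 hcon.le
    linarith
  obtain ⟨hae, hint, hI⟩ := BTW_log hLGA hφ hφ1 hz1 hT hz1ne hlog
  have hsub : ball (0 : ℂ) (4 / 5) ⊆ ball 0 1 := ball_subset_ball (by norm_num)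
  have hsub' : ball (0 : ℂ) (3 / 4) ⊆ ball 0 (4 / 5) := ball_subset_ball (by norm_num)
  have hSs : ContDiffOn ℝ ∞ (BTW_S φ K) (ball 0 1) :=
    (contDiffOn_const.mul (BTW_smooth hφ K)).add contDiffOn_const
  have hbd := fun z (hz : z ∈ ball (0 : ℂ) 1) => BTW_bounds (φ := φ) hK1 (hφ1 z hz)
  -- the integral of |S|
  have hSa : ∫ z in ball (0 : ℂ) (4 / 5), |BTW_S φ K z| ≤ q ^ 2 := by
    have hV1 : volume.real (ball (0 : ℂ) (4 / 5)) ≤ 4 := by
      rw [measureReal_def, Complex.volume_ball, ENNReal.toReal_mul, ENNReal.toReal_pow,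
        ENNReal.toReal_ofReal (by norm_num)]
      have hpi := Real.pi_lt_d2
      have hpi0 := Real.pi_pos
      have h1 : (NNReal.pi : ENNReal).toReal = Real.pi := rfl
      rw [h1]
      nlinarith
    have i1 : IntegrableOn (fun z => |BTW_S φ K z|) (ball (0 : ℂ) (4 / 5)) :=
      ((hSs.continuousOn.abs.mono (closedBall_subset_ball
        (by norm_num : (4 / 5 : ℝ) < 1))).integrableOn_compact
        (isCompact_closedBall (0 : ℂ) (4 / 5))).mono_set ball_subset_closedBall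
    have i2 : IntegrableOn (fun _ : ℂ => (1 : ℝ)) (ball (0 : ℂ) (4 / 5)) :=
      integrableOn_const measure_ball_lt_top.ne
    have i3 : IntegrableOn (fun z => 2 * |Real.log ‖φ z‖|) (ball (0 : ℂ) (4 / 5)) :=
      hint.const_mul 2
    have h1 : ∫ z in ball (0 : ℂ) (4 / 5), |BTW_S φ K z| ≤
        ∫ z in ball (0 : ℂ) (4 / 5), 1 / (4 * K) * (1 + 2 * |Real.log ‖φ z‖|) := by
      refine setIntegral_mono_ae_restrict i1 ((i2.add i3).const_mul _) ?_
      filter_upwards [hae, ae_restrict_mem measurableSet_ball] with z hz hzb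
      exact (hbd z (hsub hzb)).2.2.1 hz
    rw [integral_const_mul, integral_add i2 i3, integral_const_mul, setIntegral_const, smul_eq_mul,
      mul_one] at h1
    have h2 : 1 / (4 * K) * (volume.real (ball (0 : ℂ) (4 / 5)) +
        2 * ∫ z in ball (0 : ℂ) (4 / 5), |Real.log ‖φ z‖|) ≤
        1 / (4 * K) * (4 + 2 * (10 ^ 5 * (c * K))) :=
      mul_le_mul_of_nonneg_left (by linarith) (by positivity)
    have h3 : 1 / (4 * K) * (4 + 2 * (10 ^ 5 * (c * K))) = 1 / K + η := by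
      rw [hc]
      field_simp
      ring
    rw [h3] at h2
    have h4 : q ^ 2 = η + η := by rw [hη]; ring
    linarith
  have hmain := hCC (BTW_S φ K) v (q ^ 2) B hSs hv (fun z hz => ⟨BTW_sub hLSE hφ K hK0 z hz,
    abs_le.2 ⟨(hbd z hz).2.1, by linarith [(hbd z hz).1]⟩, (hvB z hz).2⟩) hB.le (by positivity) hSa
  rw [Real.sqrt_sq hq0.le] at hmain
  -- global functions
  set T : ℂ → ℝ := fun z => b2 z * BTW_S φ K z with hTd
  set V : ℂ → ℝ := fun z => b2 z * v z with hVd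
  have hTs : ContDiff ℝ ∞ T := CUT_ext hb2s hb2t hSs
  have hVs : ContDiff ℝ ∞ V := CUT_ext hb2s hb2t hv
  have hTe : ∀ z ∈ ball (0 : ℂ) (4 / 5), T z = BTW_S φ K z := fun z hz => by
    show b2 z * BTW_S φ K z = BTW_S φ K z
    rw [hb2one z (ball_subset_closedBall hz), one_mul]
  have hVe : ∀ z ∈ ball (0 : ℂ) (4 / 5), V z = v z := fun z hz => by
    show b2 z * v z = v z
    rw [hb2one z (ball_subset_closedBall hz), one_mul]
  have hVl : ∀ z ∈ ball (0 : ℂ) (4 / 5), lap V z = lap v z := fun z hz =>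
    CUT_congr (by filter_upwards [isOpen_ball.mem_nhds hz] with x hx using hVe x hx)
  have hcongr : (fun z => b1 z * BTW_S φ K z * lap v z) = fun z => b1 z * T z * lap V z := by
    funext z
    by_cases hz : z ∈ ball (0 : ℂ) (4 / 5)
    · rw [hTe z hz, hVl z hz]
    · rw [image_eq_zero_of_notMem_tsupport fun h => hz (hb1t h)]
      simp
  have iT : Integrable (fun z => b1 z * T z * lap V z) :=
    BC2_intg ((hb1s.continuous.mul hTs.continuous).mul (IG_lap_cont hVs)) fun z hz => by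
      rw [image_eq_zero_of_notMem_tsupport fun h => hz (hb1t h)]
      simp
  -- the set
  set D : Set ℂ := ball (0 : ℂ) (3 / 4) ∩ {z | ‖φ z‖ ≤ Real.exp (-K)} with hD
  have hDm : MeasurableSet D := by
    have h1 : IsOpen (ball (0 : ℂ) (3 / 4) ∩ (fun z => ‖φ z‖) ⁻¹' (Ioi (Real.exp (-K)))) :=
      (hφ.continuousOn.norm.mono (hsub'.trans hsub)).isOpen_inter_preimage isOpen_ball isOpen_Ioi
    have h2 : D = ball (0 : ℂ) (3 / 4) \
        (ball (0 : ℂ) (3 / 4) ∩ (fun z => ‖φ z‖) ⁻¹' (Ioi (Real.exp (-K)))) := by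
      ext z
      constructor
      · rintro ⟨h3, h4⟩
        refine ⟨h3, fun h5 => ?_⟩
        have h6 : Real.exp (-K) < ‖φ z‖ := h5.2
        have h7 : ‖φ z‖ ≤ Real.exp (-K) := h4
        linarith
      · rintro ⟨h3, h4⟩
        refine ⟨h3, ?_⟩
        show ‖φ z‖ ≤ Real.exp (-K)
        by_contra h5
        exact h4 ⟨h3, not_le.1 h5⟩
    rw [h2]
    exact measurableSet_ball.diff h1.measurableSet
  have hDsub : D ⊆ ball (0 : ℂ) (4 / 5) := inter_subset_left.trans hsub'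
  have iV : IntegrableOn (lap V) D :=
    ((IG_lap_cont hVs).continuousOn.integrableOn_compact
      (isCompact_closedBall (0 : ℂ) (4 / 5))).mono_set (hDsub.trans ball_subset_closedBall)
  have h1 : ∫ z in D, lap v z = ∫ z in D, lap V z :=
    setIntegral_congr_fun hDm fun z hz => (hVl z (hDsub hz)).symm
  have h2 : ∫ z in D, (1 / 4) * lap V z ≤ ∫ z in D, -(b1 z * T z * lap V z) := by
    refine setIntegral_mono_on (iV.const_mul _) iT.neg.integrableOn hDm fun z hz => ?_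
    have hzb := hDsub hz
    rw [hb1one z (ball_subset_closedBall hz.1), one_mul, hTe z hzb, hVl z hzb]
    have h3 := (hbd z (hsub hzb)).2.2.2 hz.2
    have h4 := (hvB z (hsub hzb)).1
    nlinarith
  have h3 : ∫ z in D, -(b1 z * T z * lap V z) ≤ ∫ z, -(b1 z * T z * lap V z) := by
    refine setIntegral_le_integral iT.neg (Eventually.of_forall fun z => ?_)
    show 0 ≤ -(b1 z * T z * lap V z)
    by_cases hz : z ∈ ball (0 : ℂ) (4 / 5)
    · rw [hTe z hz, hVl z hz]
      have h4 := (hbd z (hsub hz)).1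
      have h5 := (hvB z (hsub hz)).1
      have h6 : 0 ≤ b1 z * (-BTW_S φ K z * lap v z) :=
        mul_nonneg b1.nonneg (mul_nonneg (by linarith) h5)
      linarith
    · rw [image_eq_zero_of_notMem_tsupport fun h => hz (hb1t h)]
      simp
  rw [integral_const_mul, integral_neg] at h2
  rw [integral_neg, integral_neg] at h3
  rw [hcongr] at hmain
  have h4 := neg_abs_le (∫ z, b1 z * T z * lap V z)
  have h5 : C * B * q = δ / 8 := by
    rw [hq]
    field_simp
  rw [h5] at hmain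
  rw [h1] at hmass
  linarith

end Pool.Agent.P2B
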