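import Pool.Agent.helper83.P2.SpecV
import Pool.Agent.helper31.P2.PMIN
import Pool.Agent.helper42.P2.DMS

/-! Row VN2 of project P2 (MP_063734_an): a sub-disc on which the mass is regularly distributed. -/

set_option autoImplicit false

open scoped ContDiff Topology
open MeasureTheory Filter Set Metric MvPolynomial Pool.Agent.helper37.QA Pool.Agent.P2

namespace Pool.Agent.P2V

theorem VN2_tau {d : ℕ} (f : Endo 2 d) (N : ℕ) {Ω : Set ℂ} (hΩ : IsOpen Ω) (W : ℂ → E3)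
    (hhol : ∀ i, DifferentiableOn ℂ (fun z => It f N (W z) i) Ω) (hne : ∀ z ∈ Ω, 0 < pq (It f N (W z))) :
    ∀ z ∈ Ω, tau f N W z = lap (fun z => un f N (W z)) z := by
  intro z hz
  have hfun : (fun z => un f N (W z)) = fun z => (1 / 2) * Real.log (Complex.normSq (It f N (W z) 0) +
      Complex.normSq (It f N (W z) 1)) / (d : ℝ) ^ N := rfl
  have hne' : ∀ z ∈ Ω, It f N (W z) 0 ≠ 0 ∨ It f N (W z) 1 ≠ 0 := by
    intro z hz
    by_contra hcon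
    push Not at hcon
    have := hne z hz
    unfold pq at this
    rw [hcon.1, hcon.2] at this
    simp at this
  rw [hfun, MAU_core (fun z => It f N (W z) 0) (fun z => It f N (W z) 1) z _ Ω hΩ hz (hhol 0) (hhol 1) (hne' z hz)]
  unfold tau pq
  rw [← Complex.normSq_neg, neg_sub]

theorem VN2_mem {a z : ℂ} {ρ r : ℝ} (hρ : 0 < ρ) (hz : z ∈ ball (0 : ℂ) r) : ‖a + ρ * z‖ < ‖a‖ + ρ * r := by
  rw [mem_ball_zero_iff] at hz
  have h1 := norm_add_le a ((ρ : ℂ) * z)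
  rw [norm_mul, Complex.norm_real, Real.norm_of_nonneg hρ.le] at h1
  nlinarith

theorem VN2_aff (a : ℂ) (ρ : ℝ) : Differentiable ℂ fun z : ℂ => a + (ρ : ℂ) * z := by fun_prop

theorem VN2_dsc {U : Set (PP 2)} {Z : ℂ → E3} (hZ : Dsc U Z) {a : ℂ} {ρ : ℝ} (hρ : 0 < ρ) (h : ‖a‖ + ρ ≤ 1) :
    Dsc U (fun z => Z (a + ρ * z)) := by
  have hm : ∀ z ∈ ball (0 : ℂ) 1, a + ρ * z ∈ ball (0 : ℂ) 1 := by
    intro z hz
    have := VN2_mem (a := a) hρ hz
    rw [mem_ball_zero_iff]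
    linarith
  refine ⟨?_, fun z hz => hZ.2 _ (hm z hz)⟩
  exact hZ.1.comp (t := ball 0 1) (VN2_aff a ρ).differentiableOn hm

theorem VN2_fun (Z : ℂ → E3) (a : ℂ) (ρ : ℝ) : (fun z => Z (a + ρ * z)) = fun w => Z (a + ρ • w) := by
  funext z
  rw [Complex.real_smul]

theorem VN2_int {g : ℂ → ℝ} {Ω : Set ℂ} (hΩ : IsOpen Ω) (hg : ContinuousOn g Ω) {c : ℂ} {r : ℝ} (hr : 0 < r)
    (hs : ball c r ⊆ Ω) : Integrable fun z => eta (r⁻¹ • (z - c)) ^ 2 * g z := by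
  have h1 : tsupport (fun ζ => eta (r⁻¹ • (ζ - c)) ^ 2) ⊆ ball c r :=
    (PMIN_eta_ts c r).trans fun ζ hζ => PMIN_eta_ball hr hζ
  have h2 : HasCompactSupport (fun ζ => eta (r⁻¹ • (ζ - c)) ^ 2) :=
    IsCompact.of_isClosed_subset (isCompact_closedBall c r) (isClosed_tsupport _) (h1.trans ball_subset_closedBall)
  exact MSS_integrable hΩ (PMIN_chi_contDiff c r).continuous (h1.trans hs) h2 hg

theorem VN2_eta_one {c z : ℂ} {t : ℝ} (ht : 0 < t) (h : ‖z - c‖ ≤ t * (7 / 10)) : eta (t⁻¹ • (z - c)) = 1 := by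
  apply PMIN_eta_one
  rw [Complex.normSq_eq_norm_sq, norm_smul, norm_inv, Real.norm_of_nonneg ht.le, inv_mul_eq_div]
  have h3 : ‖z - c‖ / t ≤ 7 / 10 := by
    rw [div_le_iff₀ ht]
    linarith
  have h4 : 0 ≤ ‖z - c‖ / t := div_nonneg (norm_nonneg _) ht.le
  nlinarith

/-- the mass of a small disc is at most the mass of a sub-disc -/
theorem VN2_sub {d : ℕ} (f : Endo 2 d) {U : Set (PP 2)} {Z : ℂ → E3} (hZ : Dsc U Z)
    (hpos : ∀ n : ℕ, ∀ W ∈ cone U, 0 < pq (It f n W)) (N : ℕ) {a ζ : ℂ} {ρ t : ℝ} (hρ : 0 < ρ) (h : ‖a‖ + 2 * ρ ≤ 1)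
    (hζ : ζ ∈ ball (0 : ℂ) (9 / 8)) (ht : 0 < t) (ht8 : t ≤ 1 / 8) :
    ∫ z in ball ζ t, lap (fun z => un f N (Z (a + ρ * z))) z ≤
      mass f N (fun z => Z (a + ρ * ζ + (ρ * (3 / 2 * t) : ℝ) * z)) := by
  have hm : ∀ z ∈ ball (0 : ℂ) 2, a + ρ * z ∈ ball (0 : ℂ) 1 := by
    intro z hz
    have := VN2_mem (a := a) hρ hz
    rw [mem_ball_zero_iff]
    linarith
  set W : ℂ → E3 := fun z => Z (a + ρ * z) with hW
  have hhol : ∀ i, DifferentiableOn ℂ (fun z => It f N (W z) i) (ball 0 2) := by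
    intro i
    exact (PMIN_hol f hZ N i).comp (t := ball 0 1) (f := fun z : ℂ => a + (ρ : ℂ) * z)
      (g := fun z => It f N (Z z) i) (VN2_aff a ρ).differentiableOn hm
  have hne : ∀ z ∈ ball (0 : ℂ) 2, 0 < pq (It f N (W z)) := fun z hz => hpos N _ (hZ.2 _ (hm z hz))
  have htau := VN2_tau f N isOpen_ball W hhol hne
  have hcont : ContinuousOn (fun z => tau f N W z) (ball 0 2) := by
    have h1 : (fun z => tau f N W z) = fun z => ρ ^ 2 * tau f N Z (a + ρ * z) := by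
      funext z
      have h2 := PMIN_tau_scale f N Z a ρ z
      rw [← VN2_fun, Complex.real_smul] at h2
      exact h2
    rw [h1]
    refine continuousOn_const.mul ?_
    exact (PMIN_cont_tau f hZ hpos N).comp (t := ball 0 1) (f := fun z : ℂ => a + (ρ : ℂ) * z)
      (VN2_aff a ρ).continuous.continuousOn hm
  have ht' : 0 < 3 / 2 * t := by positivity
  have hζ' : ‖ζ‖ < 9 / 8 := mem_ball_zero_iff.1 hζ
  have hsub : ball ζ (3 / 2 * t) ⊆ ball (0 : ℂ) 2 := by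
    intro z hz
    rw [mem_ball_iff_norm] at hz
    rw [mem_ball_zero_iff]
    have h1 : ‖z‖ ≤ ‖z - ζ‖ + ‖ζ‖ := by
      have := norm_add_le (z - ζ) ζ
      simpa using this
    linarith
  have hint := VN2_int isOpen_ball hcont ht' hsub
  have hmass : mass f N (fun z => Z (a + ρ * ζ + (ρ * (3 / 2 * t) : ℝ) * z)) =
      ∫ z, eta ((3 / 2 * t)⁻¹ • (z - ζ)) ^ 2 * tau f N W z := by
    rw [← PMIN_mass_scale f N W ζ ht']
    congr 1
    funext w
    rw [hW]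
    dsimp only
    congr 1
    rw [Complex.real_smul]
    push_cast
    ring
  rw [hmass]
  have h1 : ∫ z in ball ζ t, lap (fun z => un f N (Z (a + ρ * z))) z = ∫ z in ball ζ t,
      eta ((3 / 2 * t)⁻¹ • (z - ζ)) ^ 2 * tau f N W z := by
    refine setIntegral_congr_fun measurableSet_ball fun z hz => ?_
    have hz2 : ‖z - ζ‖ < t := mem_ball_iff_norm.1 hz
    have h2 : z ∈ ball (0 : ℂ) 2 := hsub (ball_subset_ball (by linarith) hz)
    have h3 : eta ((3 / 2 * t)⁻¹ • (z - ζ)) = 1 := VN2_eta_one ht' (by linarith)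
    change lap (fun z => un f N (W z)) z = eta ((3 / 2 * t)⁻¹ • (z - ζ)) ^ 2 * tau f N W z
    rw [h3, htau z h2]
    ring
  rw [h1]
  exact setIntegral_le_integral hint (Eventually.of_forall fun z => mul_nonneg (sq_nonneg _) (PMIN_tau_nonneg f W N z))

/-! ### Hoelder continuity along the disc -/

theorem VN2_nq_pos {W : E3} (h : W ≠ 0) : 0 < nq W := by
  unfold nq
  have h1 : ∃ i, W i ≠ 0 := by
    by_contra hcon
    push Not at hcon
    exact h (funext hcon)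
  obtain ⟨i, hi⟩ := h1
  exact Finset.sum_pos' (fun j _ => Complex.normSq_nonneg _) ⟨i, Finset.mem_univ _, Complex.normSq_pos.2 hi⟩

theorem VN2_holder {U : Set (PP 2)} {Z : ℂ → E3} (hZ : Dsc U Z) {u : ℕ → E3 → ℝ} {C0 C α : ℝ} (hα : 0 < α)
    (hu : ∀ n, ∀ W ∈ cone U, |u n W - (1 / 2) * Real.log (nq W)| ≤ C0) (hC : 0 ≤ C)
    (hH : ∀ n, ∀ W ∈ cone U, ∀ W' ∈ cone U, ‖W - W'‖ ≤ (1 / 2) * ‖W‖ → |u n W - u n W'| ≤ C * (‖W - W'‖ / ‖W‖) ^ α) :
    ∃ K : ℝ, 0 ≤ K ∧ ∀ n, ∀ z ∈ closedBall (0 : ℂ) (9 / 10), ∀ z' ∈ closedBall (0 : ℂ) (9 / 10),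
      |u n (Z z) - u n (Z z')| ≤ K * ‖z - z'‖ ^ α := by
  have hQ : IsCompact (closedBall (0 : ℂ) (9 / 10)) := isCompact_closedBall _ _
  have hQs : closedBall (0 : ℂ) (9 / 10) ⊆ ball 0 1 := closedBall_subset_ball (by norm_num)
  have hQne : (closedBall (0 : ℂ) (9 / 10)).Nonempty := nonempty_closedBall.2 (by norm_num)
  have hZc : ContinuousOn Z (closedBall (0 : ℂ) (9 / 10)) := hZ.1.continuousOn.mono hQs
  obtain ⟨z0, hz0, hmin⟩ := hQ.exists_isMinOn hQne hZc.norm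
  have hc0 : 0 < ‖Z z0‖ := by
    obtain ⟨h, _⟩ := hZ.2 z0 (hQs hz0)
    exact norm_pos_iff.2 h
  set c0 : ℝ := ‖Z z0‖ with hc0d
  have hc0m : ∀ z ∈ closedBall (0 : ℂ) (9 / 10), c0 ≤ ‖Z z‖ := fun z hz => hmin hz
  obtain ⟨L0, hL0⟩ := hQ.exists_bound_of_continuousOn ((hZ.1.deriv isOpen_ball).continuousOn.mono hQs)
  set Lp : ℝ := |L0| + 1 with hLp
  have hLp0 : 0 < Lp := by positivity
  have hLip : ∀ z ∈ closedBall (0 : ℂ) (9 / 10), ∀ z' ∈ closedBall (0 : ℂ) (9 / 10), ‖Z z - Z z'‖ ≤ Lp * ‖z - z'‖ := by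
    intro z hz z' hz'
    refine (convex_closedBall (0 : ℂ) (9 / 10)).norm_image_sub_le_of_norm_deriv_le (𝕜 := ℂ)
      (fun x hx => hZ.1.differentiableAt (isOpen_ball.mem_nhds (hQs hx))) (fun x hx => ?_) hz' hz
    have := hL0 x hx
    have h2 := le_abs_self L0
    linarith
  have hnq : ContinuousOn (fun z => (1 / 2) * Real.log (nq (Z z))) (closedBall (0 : ℂ) (9 / 10)) := by
    have h1 : Continuous (nq : E3 → ℝ) := continuous_finsetSum _ fun i _ => Complex.continuous_normSq.comp (continuous_apply i)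
    refine continuousOn_const.mul ((h1.comp_continuousOn hZc).log fun z hz => ?_)
    obtain ⟨h, _⟩ := hZ.2 z (hQs hz)
    exact (VN2_nq_pos h).ne'
  obtain ⟨B0, hB0⟩ := hQ.exists_bound_of_continuousOn hnq
  have hC0 : 0 ≤ C0 := (abs_nonneg _).trans (hu 0 _ (hZ.2 z0 (hQs hz0)))
  set B : ℝ := C0 + |B0| with hB
  have hBb : ∀ n, ∀ z ∈ closedBall (0 : ℂ) (9 / 10), |u n (Z z)| ≤ B := by
    intro n z hz
    have h1 := hu n _ (hZ.2 z (hQs hz))
    have h2 := hB0 z hz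
    rw [Real.norm_eq_abs] at h2
    have h3 := le_abs_self B0
    have h4 : u n (Z z) = (u n (Z z) - (1 / 2) * Real.log (nq (Z z))) + (1 / 2) * Real.log (nq (Z z)) := by ring
    rw [h4]
    exact (abs_add_le _ _).trans (by linarith)
  have hB0' : 0 ≤ B := by positivity
  refine ⟨C * (Lp / c0) ^ α + 2 * B * (2 * Lp / c0) ^ α, by positivity, ?_⟩
  intro n z hz z' hz'
  have hr0 : 0 ≤ ‖z - z'‖ := norm_nonneg _
  have e1 : (C * (Lp / c0) ^ α + 2 * B * (2 * Lp / c0) ^ α) * ‖z - z'‖ ^ α =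
      C * (Lp / c0 * ‖z - z'‖) ^ α + 2 * B * (2 * Lp / c0 * ‖z - z'‖) ^ α := by
    rw [Real.mul_rpow (by positivity) hr0, Real.mul_rpow (by positivity) hr0]
    ring
  rw [e1]
  by_cases hcase : ‖Z z - Z z'‖ ≤ (1 / 2) * ‖Z z‖
  · have h1 := hH n _ (hZ.2 z (hQs hz)) _ (hZ.2 z' (hQs hz')) hcase
    have h2 : ‖Z z - Z z'‖ / ‖Z z‖ ≤ Lp / c0 * ‖z - z'‖ := by
      have h3 : Lp / c0 * ‖z - z'‖ = Lp * ‖z - z'‖ / c0 := by ring
      rw [h3]
      exact div_le_div₀ (by positivity) (hLip z hz z' hz') hc0 (hc0m z hz)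
    have h3 : (‖Z z - Z z'‖ / ‖Z z‖) ^ α ≤ (Lp / c0 * ‖z - z'‖) ^ α :=
      Real.rpow_le_rpow (by positivity) h2 hα.le
    have h4 : 0 ≤ 2 * B * (2 * Lp / c0 * ‖z - z'‖) ^ α := by positivity
    nlinarith
  · rw [not_le] at hcase
    have h1 := hLip z hz z' hz'
    have h2 := hc0m z hz
    have h3 : 1 ≤ 2 * Lp / c0 * ‖z - z'‖ := by
      have h4 : 2 * Lp / c0 * ‖z - z'‖ = 2 * (Lp * ‖z - z'‖) / c0 := by ring
      rw [h4, le_div_iff₀ hc0]
      linarith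
    have h4 : 1 ≤ (2 * Lp / c0 * ‖z - z'‖) ^ α := Real.one_le_rpow h3 hα.le
    have h5 : |u n (Z z) - u n (Z z')| ≤ 2 * B := by
      have h6 := hBb n z hz
      have h7 := hBb n z' hz'
      have h8 := abs_sub (u n (Z z)) (u n (Z z'))
      linarith
    have h6 : 0 ≤ C * (Lp / c0 * ‖z - z'‖) ^ α := by positivity
    nlinarith

/-! ### The masses of the sub-discs -/

theorem VN2_lap0 (c : ℝ) : ∫ z, lap (fun z => eta z ^ 2) z * c = 0 := by
  have hc : HasCompactSupport (fun z : ℂ => eta z ^ 2) :=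
    IsCompact.of_isClosed_subset (isCompact_closedBall (0 : ℂ) 1) (isClosed_tsupport _)
      (DMS_eta.2.trans ball_subset_closedBall)
  have h1 := MSS_green (κ := fun z : ℂ => eta z ^ 2) (h := fun _ => c) isOpen_ball
    (DMS_eta.1.of_le ENat.LEInfty.out) DMS_eta.2 hc contDiffOn_const
  rw [← h1]
  have h2 : ∀ z : ℂ, lap (fun _ : ℂ => c) z = 0 := by
    intro z
    unfold lap
    rw [iteratedFDeriv_const_of_ne (by norm_num)]
    simp
  simp [h2]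

theorem VN2_up (hMSS : MSS_stmt) {d : ℕ} {f : Endo 2 d} {U : Set (PP 2)} (hd : 2 ≤ d) (hU : Good0 f U)
    (hpos : ∀ n : ℕ, ∀ W ∈ cone U, 0 < pq (It f n W)) {Z : ℂ → E3} (hZ : Dsc U Z) {K α : ℝ} (hK : 0 ≤ K) (hα : 0 < α)
    (hH : ∀ n, ∀ z ∈ closedBall (0 : ℂ) (9 / 10), ∀ z' ∈ closedBall (0 : ℂ) (9 / 10),
      |un f n (Z z) - un f n (Z z')| ≤ K * ‖z - z'‖ ^ α) (N : ℕ) {a : ℂ} {ρ : ℝ} (hρ : 0 < ρ)
    (h : ‖a‖ + 2 * ρ ≤ 9 / 10) :
    mass f N (fun z => Z (a + ρ * z)) ≤ (∫ z, |lap (fun z => eta z ^ 2) z|) * (K * ρ ^ α) := by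
  have hD := VN2_dsc hZ hρ (by linarith : ‖a‖ + ρ ≤ 1)
  have hm := (hMSS d f U hd hU _ hD N).2 (fun z => eta z ^ 2) DMS_eta.1 DMS_eta.2
  obtain ⟨l1, l2, l3⟩ := DMS_lap (DMS_eta.1.of_le ENat.LEInfty.out) DMS_eta.2
  have h1 := DMS_diff (κ := lap fun z => eta z ^ 2) (g := fun z => un f N (Z (a + ρ * z)))
    (h := fun _ => un f N (Z a)) l1 l2 l3 (PMIN_cont_un f hD hpos N) continuousOn_const (K * ρ ^ α) (by
      intro z hz
      have hz1 := VN2_mem (a := a) hρ hz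
      have hz2 : ‖z‖ < 1 := mem_ball_zero_iff.1 hz
      have e1 : a + ρ * z ∈ closedBall (0 : ℂ) (9 / 10) := by
        rw [mem_closedBall_zero_iff]
        linarith
      have e2 : a ∈ closedBall (0 : ℂ) (9 / 10) := by
        rw [mem_closedBall_zero_iff]
        linarith
      refine (hH N _ e1 _ e2).trans ?_
      refine mul_le_mul_of_nonneg_left ?_ hK
      refine Real.rpow_le_rpow (norm_nonneg _) ?_ hα.le
      rw [add_sub_cancel_left, norm_mul, Complex.norm_real, Real.norm_of_nonneg hρ.le]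
      nlinarith)
  rw [VN2_lap0, sub_zero] at h1
  unfold mass
  rw [hm]
  exact (le_abs_self _).trans h1

theorem VN2_cau (hMSS : MSS_stmt) {d : ℕ} {f : Endo 2 d} {U : Set (PP 2)} (hd : 2 ≤ d) (hU : Good0 f U)
    (hpos : ∀ n : ℕ, ∀ W ∈ cone U, 0 < pq (It f n W)) {C : ℝ}
    (hu1 : ∀ n N : ℕ, n ≤ N → ∀ W ∈ cone U, |un f N W - un f n W| ≤ C / (d : ℝ) ^ n)
    {Z : ℂ → E3} (hZ : Dsc U Z) {a : ℂ} {ρ : ℝ} (hρ : 0 < ρ) (h : ‖a‖ + 2 * ρ ≤ 9 / 10) (N M : ℕ) (hNM : N ≤ M) :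
    |mass f M (fun z => Z (a + ρ * z)) - mass f N (fun z => Z (a + ρ * z))| ≤
      (∫ z, |lap (fun z => eta z ^ 2) z|) * (C / (d : ℝ) ^ N) := by
  have hD := VN2_dsc hZ hρ (by linarith : ‖a‖ + ρ ≤ 1)
  have hmM := (hMSS d f U hd hU _ hD M).2 (fun z => eta z ^ 2) DMS_eta.1 DMS_eta.2
  have hmN := (hMSS d f U hd hU _ hD N).2 (fun z => eta z ^ 2) DMS_eta.1 DMS_eta.2
  obtain ⟨l1, l2, l3⟩ := DMS_lap (DMS_eta.1.of_le ENat.LEInfty.out) DMS_eta.2
  unfold mass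
  rw [hmM, hmN]
  exact DMS_diff (κ := lap fun z => eta z ^ 2) l1 l2 l3 (PMIN_cont_un f hD hpos M) (PMIN_cont_un f hD hpos N) _
    fun z hz => hu1 N M hNM _ (hD.2 z hz)

theorem VN2_lim {s : ℕ → ℝ} {L D : ℝ} (hD : 1 < D) (h : ∀ N M : ℕ, N ≤ M → |s M - s N| ≤ L / D ^ N) :
    ∃ m : ℝ, ∀ N, |s N - m| ≤ L / D ^ N := by
  have ht : Tendsto (fun N : ℕ => 2 * (L / D ^ N)) atTop (𝓝 0) := by
    have h1 := ((tendsto_pow_atTop_atTop_of_one_lt hD).const_div_atTop L).const_mul 2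
    simpa using h1
  have hc : CauchySeq s := by
    refine cauchySeq_of_le_tendsto_0 (fun N : ℕ => 2 * (L / D ^ N)) ?_ ht
    intro n m N hn hm
    rw [Real.dist_eq]
    have h1 := h N n hn
    have h2 := h N m hm
    have h3 : s n - s m = (s n - s N) - (s m - s N) := by ring
    rw [h3]
    exact (abs_sub _ _).trans (by linarith)
  obtain ⟨m, hm⟩ := cauchySeq_tendsto_of_complete hc
  refine ⟨m, fun N => ?_⟩
  have h1 : Tendsto (fun M => |s N - s M|) atTop (𝓝 |s N - m|) := (tendsto_const_nhds.sub hm).abs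
  refine le_of_tendsto h1 ?_
  filter_upwards [eventually_ge_atTop N] with M hM
  rw [abs_sub_comm]
  exact h N M hM

theorem VN2_cover {d : ℕ} (f : Endo 2 d) {U : Set (PP 2)} {Z : ℂ → E3} (hZ : Dsc U Z)
    (hpos : ∀ n : ℕ, ∀ W ∈ cone U, 0 < pq (It f n W)) :
    ∃ t : Finset ℂ, (∀ a ∈ t, ‖a‖ ≤ 4 / 5) ∧ ∀ N, mass f N Z ≤ ∑ a ∈ t, mass f N (fun z => Z (a + (1 / 20 : ℝ) * z)) := by
  obtain ⟨t, htS, htc⟩ := (isCompact_closedBall (0 : ℂ) (4 / 5)).elim_nhds_subcover (fun z => ball z (1 / 40))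
    fun z _ => ball_mem_nhds z (by norm_num)
  have htb : ∀ a ∈ t, ‖a‖ ≤ 4 / 5 := fun a ha => mem_closedBall_zero_iff.1 (htS a ha)
  refine ⟨t, htb, fun N => ?_⟩
  have hr : (0 : ℝ) < 1 / 20 := by norm_num
  have hint : ∀ a ∈ t, Integrable fun ζ => eta ((1 / 20 : ℝ)⁻¹ • (ζ - a)) ^ 2 * tau f N Z ζ := by
    intro a ha
    refine VN2_int isOpen_ball (PMIN_cont_tau f hZ hpos N) hr ?_
    intro z hz
    rw [mem_ball_iff_norm] at hz
    rw [mem_ball_zero_iff]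
    have h1 := htb a ha
    have h2 : ‖z‖ ≤ ‖z - a‖ + ‖a‖ := by
      have := norm_add_le (z - a) a
      simpa using this
    linarith
  have h1 : ∑ a ∈ t, mass f N (fun z => Z (a + (1 / 20 : ℝ) * z)) =
      ∫ ζ, ∑ a ∈ t, eta ((1 / 20 : ℝ)⁻¹ • (ζ - a)) ^ 2 * tau f N Z ζ := by
    rw [integral_finsetSum t hint]
    refine Finset.sum_congr rfl fun a _ => ?_
    rw [VN2_fun]
    exact PMIN_mass_scale f N Z a hr
  rw [h1]
  unfold mass
  refine integral_mono_of_nonneg (Eventually.of_forall fun ζ => ?_) (integrable_finsetSum t hint)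
    (Eventually.of_forall fun ζ => ?_)
  · exact mul_nonneg (sq_nonneg _) (PMIN_tau_nonneg f Z N ζ)
  · dsimp only
    have hnn : ∀ a ∈ t, 0 ≤ eta ((1 / 20 : ℝ)⁻¹ • (ζ - a)) ^ 2 * tau f N Z ζ := fun a _ =>
      mul_nonneg (sq_nonneg _) (PMIN_tau_nonneg f Z N ζ)
    by_cases hζ : Complex.normSq ζ ≤ 5 / 8
    · have hζ' : ζ ∈ closedBall (0 : ℂ) (4 / 5) := by
        rw [mem_closedBall_zero_iff]
        rw [Complex.normSq_eq_norm_sq] at hζ
        by_contra hcon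
        rw [not_le] at hcon
        nlinarith
      obtain ⟨a, ha, haζ⟩ := mem_iUnion₂.1 (htc hζ')
      have h2 : eta ((1 / 20 : ℝ)⁻¹ • (ζ - a)) = 1 := by
        refine VN2_eta_one hr ?_
        have := mem_ball_iff_norm.1 haζ
        linarith
      have h5 : eta ζ ^ 2 * tau f N Z ζ ≤ eta ((1 / 20 : ℝ)⁻¹ • (ζ - a)) ^ 2 * tau f N Z ζ := by
        refine mul_le_mul_of_nonneg_right ?_ (PMIN_tau_nonneg f Z N ζ)
        rw [h2]
        have h6 := PMIN_eta_le ζ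
        have h7 := PMIN_eta_nonneg ζ
        nlinarith
      exact h5.trans (Finset.single_le_sum hnn ha)
    · rw [PMIN_eta_zero (not_le.1 hζ).le]
      simpa using Finset.sum_nonneg hnn

theorem VN2 (hUN1 : UN1_stmt) (hUNH : UNH_stmt) (hMSS : MSS_stmt) : VN2_stmt := by
  intro d f U hd hU
  obtain ⟨C1, hC1, hu1, hu2, hu3, _⟩ := hUN1 d f U hd hU
  obtain ⟨C2, α, hC2, hα, hα1, hH⟩ := hUNH d f U hd hU
  have hsub : cone U ⊆ cone (closure U) := fun W ⟨h, hW⟩ => ⟨h, subset_closure hW⟩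
  have hpos : ∀ n : ℕ, ∀ W ∈ cone U, 0 < pq (It f n W) := fun n W hW => (hu3 n W (hsub hW)).1
  have hd1 : (1 : ℝ) < d := by exact_mod_cast (by omega : 1 < d)
  have hd0 : (0 : ℝ) < d := by linarith
  refine ⟨α / 2, 20, by positivity, by norm_num, ?_⟩
  intro Z hZ hch
  obtain ⟨c, hc, hcN⟩ := hch
  obtain ⟨K, hK, hKH⟩ := VN2_holder (u := fun n => un f n) hZ hα (fun n W hW => hu2 n W (hsub hW)) hC2.le hH
  set E : ℝ := ∫ z, |lap (fun z : ℂ => eta z ^ 2) z| with hE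
  have hE0 : 0 ≤ E := integral_nonneg fun z => abs_nonneg _
  set β : ℝ := α / 2 with hβ
  have hβ0 : 0 < β := by positivity
  have hcau := fun (a : ℂ) (ρ : ℝ) (hρ : 0 < ρ) (h : ‖a‖ + 2 * ρ ≤ 9 / 10) =>
    VN2_cau hMSS hd hU hpos (C := C1) (fun n N hn W hW => hu1 n N hn W (hsub hW)) hZ hρ h
  have hup := fun (a : ℂ) (ρ : ℝ) (hρ : 0 < ρ) (h : ‖a‖ + 2 * ρ ≤ 9 / 10) (N : ℕ) =>
    VN2_up hMSS hd hU hpos hZ hK hα hKH N hρ h
  -- the limits
  have hlim : ∀ (a : ℂ) (ρ : ℝ), ∃ m : ℝ, 0 < ρ → ‖a‖ + 2 * ρ ≤ 9 / 10 →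
      ∀ N, |mass f N (fun z => Z (a + ρ * z)) - m| ≤ (E * C1) / (d : ℝ) ^ N := by
    intro a ρ
    by_cases hcase : 0 < ρ ∧ ‖a‖ + 2 * ρ ≤ 9 / 10
    · obtain ⟨m, hm⟩ := VN2_lim (s := fun N => mass f N (fun z => Z (a + ρ * z))) (L := E * C1) hd1 (by
        intro N M hNM
        have := hcau a ρ hcase.1 hcase.2 N M hNM
        rw [mul_div_assoc]
        exact this)
      exact ⟨m, fun _ _ => hm⟩
    · exact ⟨0, fun h1 h2 => absurd ⟨h1, h2⟩ hcase⟩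
  choose m hm using hlim
  have htend : Tendsto (fun N : ℕ => (E * C1) / (d : ℝ) ^ N) atTop (𝓝 0) :=
    (tendsto_pow_atTop_atTop_of_one_lt hd1).const_div_atTop (E * C1)
  have hmup : ∀ (a : ℂ) (ρ : ℝ), 0 < ρ → ‖a‖ + 2 * ρ ≤ 9 / 10 → m a ρ ≤ E * (K * ρ ^ α) := by
    intro a ρ hρ h
    have h1 : Tendsto (fun N : ℕ => E * (K * ρ ^ α) + (E * C1) / (d : ℝ) ^ N) atTop (𝓝 (E * (K * ρ ^ α) + 0)) :=
      tendsto_const_nhds.add htend
    rw [add_zero] at h1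
    refine ge_of_tendsto h1 (Eventually.of_forall fun N => ?_)
    have h2 := (abs_le.1 (hm a ρ hρ h N)).1
    have h3 := hup a ρ hρ h N
    linarith
  -- the supremum
  set S : Set ℝ := {x | ∃ (a : ℂ) (ρ : ℝ), 0 < ρ ∧ ‖a‖ + 2 * ρ ≤ 9 / 10 ∧ x = m a ρ / ρ ^ β} with hS
  have hSb : BddAbove S := by
    refine ⟨E * K, ?_⟩
    rintro x ⟨a, ρ, hρ, h, rfl⟩
    rw [div_le_iff₀ (Real.rpow_pos_of_pos hρ β)]
    refine (hmup a ρ hρ h).trans ?_
    have h1 : ρ ^ α ≤ ρ ^ β :=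
      Real.rpow_le_rpow_of_exponent_ge hρ (by linarith [norm_nonneg a]) (by rw [hβ]; linarith)
    rw [mul_assoc]
    exact mul_le_mul_of_nonneg_left (mul_le_mul_of_nonneg_left h1 hK) hE0
  obtain ⟨t, htb, htm⟩ := VN2_cover f hZ hpos
  have hposS : ∃ x ∈ S, 0 < x := by
    by_contra hcon
    push Not at hcon
    have hle : ∀ a ∈ t, m a (1 / 20) ≤ 0 := by
      intro a ha
      have h1 : ‖a‖ + 2 * (1 / 20 : ℝ) ≤ 9 / 10 := by linarith [htb a ha]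
      have h2 := hcon (m a (1 / 20) / (1 / 20 : ℝ) ^ β) ⟨a, 1 / 20, by norm_num, h1, rfl⟩
      have h3 : (0 : ℝ) < (1 / 20 : ℝ) ^ β := Real.rpow_pos_of_pos (by norm_num) β
      by_contra hcon2
      rw [not_le] at hcon2
      exact absurd (div_pos hcon2 h3) (not_lt.2 h2)
    have hle2 : ∀ N, mass f N Z ≤ t.card * ((E * C1) / (d : ℝ) ^ N) := by
      intro N
      refine (htm N).trans ?_
      rw [← nsmul_eq_mul]
      refine Finset.sum_le_card_nsmul t _ _ fun a ha => ?_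
      have h1 : ‖a‖ + 2 * (1 / 20 : ℝ) ≤ 9 / 10 := by linarith [htb a ha]
      have h2 := (abs_le.1 (hm a (1 / 20) (by norm_num) h1 N)).2
      linarith [hle a ha]
    have ht0 : Tendsto (fun N : ℕ => (t.card : ℝ) * ((E * C1) / (d : ℝ) ^ N)) atTop (𝓝 0) := by
      simpa using htend.const_mul (t.card : ℝ)
    have he : ∀ᶠ N : ℕ in atTop, (t.card : ℝ) * ((E * C1) / (d : ℝ) ^ N) < c := (tendsto_order.1 ht0).2 _ hc
    obtain ⟨N, hN1, hN2⟩ := (hcN.and he).exists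
    linarith [hle2 N]
  obtain ⟨x0, hx0, hx0p⟩ := hposS
  have hsup : 0 < sSup S := hx0p.trans_le (le_csSup hSb hx0)
  obtain ⟨x, ⟨a, ρ, hρ, hadm, rfl⟩, hx⟩ := exists_lt_of_lt_csSup ⟨x0, hx0⟩ (half_lt_self hsup)
  have hρβ : 0 < ρ ^ β := Real.rpow_pos_of_pos hρ β
  have hM : 0 < m a ρ := by
    have h1 : 0 < m a ρ / ρ ^ β := by linarith
    by_contra hcon
    rw [not_lt] at hcon
    exact absurd h1 (not_lt.2 (div_nonpos_of_nonpos_of_nonneg hcon hρβ.le))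
  set M0 : ℝ := m a ρ with hM0
  have hSle : ∀ (a' : ℂ) (ρ' : ℝ), 0 < ρ' → ‖a'‖ + 2 * ρ' ≤ 9 / 10 → m a' ρ' ≤ 2 * (M0 / ρ ^ β) * ρ' ^ β := by
    intro a' ρ' hρ' h'
    have h1 : m a' ρ' / ρ' ^ β ≤ sSup S := le_csSup hSb ⟨a', ρ', hρ', h', rfl⟩
    have h2 : 0 < ρ' ^ β := Real.rpow_pos_of_pos hρ' β
    rw [div_le_iff₀ h2] at h1
    refine h1.trans (mul_le_mul_of_nonneg_right ?_ h2.le)
    linarith
  -- the small radius
  obtain ⟨t1, ht1, ht1b⟩ : ∃ t1 : ℝ, 0 < t1 ∧ ∀ s : ℝ, 0 < s → s ≤ t1 →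
      E * (K * (ρ * (3 / 2 * s)) ^ α) ≤ M0 * s ^ β := by
    set G : ℝ := E * (K * (ρ * (3 / 2)) ^ α) + 1 with hG
    have hG0 : 0 < G := by positivity
    refine ⟨(M0 / G) ^ (1 / β), Real.rpow_pos_of_pos (div_pos hM hG0) _, ?_⟩
    intro s hs hst
    have h1 : s ^ β ≤ M0 / G := by
      have h2 := Real.rpow_le_rpow hs.le hst hβ0.le
      rwa [← Real.rpow_mul (div_pos hM hG0).le, one_div, inv_mul_cancel₀ hβ0.ne', Real.rpow_one] at h2
    have h2 : s ^ α = s ^ β * s ^ β := by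
      rw [← Real.rpow_add hs, hβ]
      congr 1
      ring
    have h3 : (ρ * (3 / 2 * s)) ^ α = (ρ * (3 / 2)) ^ α * (s ^ β * s ^ β) := by
      rw [← mul_assoc, Real.mul_rpow (by positivity) hs.le, h2]
    rw [h3]
    have h4 : 0 < s ^ β := Real.rpow_pos_of_pos hs β
    have h5 : G * s ^ β ≤ M0 := by
      rw [le_div_iff₀ hG0] at h1
      linarith
    calc E * (K * ((ρ * (3 / 2)) ^ α * (s ^ β * s ^ β))) = (G - 1) * s ^ β * s ^ β := by rw [hG]; ring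
      _ ≤ M0 * s ^ β := by
        refine mul_le_mul_of_nonneg_right ?_ h4.le
        nlinarith
  have ht1β : 0 < t1 ^ β := Real.rpow_pos_of_pos ht1 β
  have he1 : ∀ᶠ N : ℕ in atTop, (E * C1) / (d : ℝ) ^ N < M0 * t1 ^ β :=
    (tendsto_order.1 htend).2 _ (by positivity)
  have he2 : ∀ᶠ N : ℕ in atTop, (E * C1) / (d : ℝ) ^ N < M0 / 2 := (tendsto_order.1 htend).2 _ (by positivity)
  refine ⟨a, ρ, M0 / 2, hρ, by linarith, by positivity, ?_⟩
  filter_upwards [he1, he2] with N hN1 hN2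
  have hmN := hm a ρ hρ hadm N
  have hlow : M0 / 2 ≤ mass f N (fun z => Z (a + ρ * z)) := by
    have := (abs_le.1 hmN).1
    linarith
  refine ⟨hlow, ?_⟩
  intro ζ hζ s hs hs8
  have h1 := VN2_sub f hZ hpos N hρ (by linarith) hζ hs hs8
  have hζn : ‖ζ‖ < 9 / 8 := mem_ball_zero_iff.1 hζ
  have hρ' : 0 < ρ * (3 / 2 * s) := by positivity
  have hadm' : ‖a + ρ * ζ‖ + 2 * (ρ * (3 / 2 * s)) ≤ 9 / 10 := by
    have h2 := VN2_mem (a := a) hρ hζ
    nlinarith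
  have hsβ : 0 < s ^ β := Real.rpow_pos_of_pos hs β
  have hkey : mass f N (fun z => Z (a + ρ * ζ + (ρ * (3 / 2 * s) : ℝ) * z)) ≤ 4 * M0 * s ^ β := by
    by_cases hst : s ≤ t1
    · have h2 := (hup _ _ hρ' hadm' N).trans (ht1b s hs hst)
      nlinarith
    · rw [not_le] at hst
      have h2 := (abs_le.1 (hm _ _ hρ' hadm' N)).2
      have h3 := hSle _ _ hρ' hadm'
      have h4 : 2 * (M0 / ρ ^ β) * (ρ * (3 / 2 * s)) ^ β ≤ 3 * M0 * s ^ β := by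
        rw [Real.mul_rpow hρ.le (by positivity), Real.mul_rpow (by norm_num) hs.le]
        have h5 : (3 / 2 : ℝ) ^ β ≤ 3 / 2 := by
          have := Real.rpow_le_rpow_of_exponent_le (by norm_num : (1 : ℝ) ≤ 3 / 2) (by rw [hβ]; linarith : β ≤ 1)
          rwa [Real.rpow_one] at this
        have h6 : 2 * (M0 / ρ ^ β) * (ρ ^ β * ((3 / 2) ^ β * s ^ β)) = 2 * M0 * s ^ β * (3 / 2) ^ β := by
          field_simp
        rw [h6]
        have h7 : 0 ≤ 2 * M0 * s ^ β := by positivity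
        nlinarith
      have h5 : t1 ^ β ≤ s ^ β := Real.rpow_le_rpow ht1.le hst.le hβ0.le
      have h6 : M0 * t1 ^ β ≤ M0 * s ^ β := mul_le_mul_of_nonneg_left h5 hM.le
      linarith
  refine (h1.trans hkey).trans ?_
  have h8 : 0 ≤ s ^ β := hsβ.le
  have h9 : 4 * M0 ≤ 20 * mass f N (fun z => Z (a + ρ * z)) := by linarith
  exact mul_le_mul_of_nonneg_right h9 h8

end Pool.Agent.P2V
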